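import Pool.Agent.TH451.MB.Stmt

/-! Job MB-ES of the project MP_9916e0_co: the criterion of Erdos and Selfridge with pairs. -/

set_option autoImplicit false

namespace Pool.Agent.TH267.MB
open Pool.Agent.TH451.MB Finset

section pot

variable {X ι : Type} [DecidableEq X] [Fintype ι]

/-- the potential of a position -/
noncomputable def Phi (L : ι → Finset X) (M B : Finset X) : ℝ :=
  ∑ i, if Disjoint (L i) M then (1 / 2 : ℝ) ^ (L i \ B).card else 0

/-- the part of the potential that contains `b` -/
noncomputable def Phb (L : ι → Finset X) (M B : Finset X) (b : X) : ℝ :=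
  ∑ i, if Disjoint (L i) M ∧ b ∈ L i then (1 / 2 : ℝ) ^ (L i \ B).card else 0

theorem Phb_le (L : ι → Finset X) (M B : Finset X) (b : X) : Phb L M B b ≤ Phi L M B := by
  unfold Phb Phi
  refine sum_le_sum fun i _ => ?_
  have h : (0 : ℝ) ≤ (1 / 2 : ℝ) ^ (L i \ B).card := by positivity
  by_cases h1 : Disjoint (L i) M
  · by_cases h2 : b ∈ L i
    · simp [h1, h2]
    · simp only [h1, h2, and_false, if_false, if_true]; exact h
  · simp [h1]

theorem Phb_nonneg (L : ι → Finset X) (M B : Finset X) (b : X) : 0 ≤ Phb L M B b := by
  unfold Phb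
  refine sum_nonneg fun i _ => ?_
  split_ifs
  · positivity
  · exact le_rfl

theorem Phi_insB (L : ι → Finset X) (M B : Finset X) (b : X) (hb : b ∉ B) :
    Phi L M (insert b B) = Phi L M B + Phb L M B b := by
  unfold Phb Phi
  rw [← sum_add_distrib]
  refine sum_congr rfl fun i _ => ?_
  by_cases h1 : Disjoint (L i) M
  · by_cases h2 : b ∈ L i
    · have h3 : (L i \ B).card = (L i \ insert b B).card + 1 := by
        rw [← card_erase_add_one (s := L i \ B) (a := b) (mem_sdiff.2 ⟨h2, hb⟩)]
        congr 2
        ext x
        simp only [mem_erase, mem_sdiff, mem_insert, not_or]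
        tauto
      simp only [h1, h2, and_self, if_true]
      rw [h3, pow_succ]
      ring
    · have h3 : L i \ insert b B = L i \ B := by
        ext x
        simp only [mem_sdiff, mem_insert, not_or]
        constructor
        · rintro ⟨h4, _, h5⟩; exact ⟨h4, h5⟩
        · rintro ⟨h4, h5⟩; exact ⟨h4, fun h => h2 (h ▸ h4), h5⟩
      simp [h1, h2, h3]
  · simp [h1]

theorem Phi_insM (L : ι → Finset X) (M B : Finset X) (m : X) :
    Phi L (insert m M) B = Phi L M B - Phb L M B m := by
  unfold Phb Phi
  rw [← sum_sub_distrib]
  refine sum_congr rfl fun i _ => ?_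
  by_cases h1 : Disjoint (L i) M
  · by_cases h2 : m ∈ L i
    · have h3 : ¬ Disjoint (L i) (insert m M) := by
        rw [disjoint_insert_right]; exact fun h => h.1 h2
      simp [h1, h2, h3]
    · have h3 : Disjoint (L i) (insert m M) := by
        rw [disjoint_insert_right]; exact ⟨h2, h1⟩
      simp [h1, h2, h3]
  · have h3 : ¬ Disjoint (L i) (insert m M) := by
      rw [disjoint_insert_right]; exact fun h => h1 h.2
    simp [h1, h3]

theorem Phb_insM_le (L : ι → Finset X) (M B : Finset X) (m c : X) :
    Phb L (insert m M) B c ≤ Phb L M B c := by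
  unfold Phb
  refine sum_le_sum fun i _ => ?_
  have h : (0 : ℝ) ≤ (1 / 2 : ℝ) ^ (L i \ B).card := by positivity
  by_cases h1 : Disjoint (L i) (insert m M) ∧ c ∈ L i
  · have h2 : Disjoint (L i) M ∧ c ∈ L i := by
      refine ⟨?_, h1.2⟩
      have := h1.1
      rw [disjoint_insert_right] at this
      exact this.2
    rw [if_pos h1, if_pos h2]
  · rw [if_neg h1]
    split_ifs
    · exact h
    · exact le_rfl

/-- moves outside of the sets do not change anything -/
theorem Phi_out (L : ι → Finset X) (M B : Finset X) (b y : X) (hb : ∀ i, b ∉ L i)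
    (hy : ∀ i, y ∉ L i) : Phi L (insert y M) (insert b B) = Phi L M B := by
  unfold Phi
  refine sum_congr rfl fun i _ => ?_
  have h3 : L i \ insert b B = L i \ B := by
    ext x
    simp only [mem_sdiff, mem_insert, not_or]
    constructor
    · rintro ⟨h4, _, h5⟩; exact ⟨h4, h5⟩
    · rintro ⟨h4, h5⟩; exact ⟨h4, fun h => hb i (h ▸ h4), h5⟩
  have h4 : Disjoint (L i) (insert y M) ↔ Disjoint (L i) M := by
    rw [disjoint_insert_right]
    exact ⟨fun h => h.2, fun h => ⟨hy i, h⟩⟩
  simp only [h3, h4]

theorem Phb_out (L : ι → Finset X) (M B : Finset X) (b y c : X) (hb : ∀ i, b ∉ L i)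
    (hy : ∀ i, y ∉ L i) : Phb L (insert y M) (insert b B) c = Phb L M B c := by
  unfold Phb
  refine sum_congr rfl fun i _ => ?_
  have h3 : L i \ insert b B = L i \ B := by
    ext x
    simp only [mem_sdiff, mem_insert, not_or]
    constructor
    · rintro ⟨h4, _, h5⟩; exact ⟨h4, h5⟩
    · rintro ⟨h4, h5⟩; exact ⟨h4, fun h => hb i (h ▸ h4), h5⟩
  have h4 : Disjoint (L i) (insert y M) ↔ Disjoint (L i) M := by
    rw [disjoint_insert_right]
    exact ⟨fun h => h.2, fun h => ⟨hy i, h⟩⟩
  simp only [h3, h4]

theorem Phi_ge_one (L : ι → Finset X) (M B : Finset X) (i : ι) (h1 : Disjoint (L i) M)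
    (h2 : L i ⊆ B) : 1 ≤ Phi L M B := by
  unfold Phi
  have h3 : (if Disjoint (L i) M then (1 / 2 : ℝ) ^ (L i \ B).card else 0) = 1 := by
    rw [if_pos h1, sdiff_eq_empty_iff_subset.2 h2, card_empty, pow_zero]
  refine le_trans h3.symm.le (single_le_sum
    (f := fun i => if Disjoint (L i) M then (1 / 2 : ℝ) ^ (L i \ B).card else 0)
    (fun j _ => ?_) (mem_univ i))
  split_ifs
  · positivity
  · exact le_rfl

end pot

theorem es_pair : StES := by
  intro X _ ι _ board F M B hM hB hMB mate hmate L hL hLm hsum hwin
  have fin : ∀ (t : Turn) (M' B' : Finset X), M ⊆ M' → M' ⊆ board → B ⊆ B' → Disjoint M' B' →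
      (∀ x y, mate x = some y → x ∈ M' ∨ y ∈ M') → Phi L M' B' < 1 →
      board \ (M' ∪ B') = ∅ → MakerWinsFrom board F t M' B' := by
    intro t M' B' h1 h2 h3 h4 h5 h6 h7
    obtain ⟨W, hW, hWM⟩ := hwin M' h1 h2 (disjoint_of_subset_right h3 h4) h5 (by
      intro i
      by_contra hcon
      push Not at hcon
      have hd : Disjoint (L i) M' := disjoint_left.2 hcon
      have hs : L i ⊆ B' := by
        intro x hx
        by_contra hxB
        have : x ∈ board \ (M' ∪ B') := by
          rw [mem_sdiff, mem_union, not_or]
          exact ⟨hL i hx, hcon x hx, hxB⟩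
        rw [h7] at this
        exact absurd this (notMem_empty x)
      have := Phi_ge_one L M' B' i hd hs
      linarith)
    exact MakerWinsFrom.won W hW hWM
  have main : ∀ k : ℕ, ∀ M' B' : Finset X, (board \ (M' ∪ B')).card ≤ k → M ⊆ M' → M' ⊆ board →
      B ⊆ B' → B' ⊆ board → Disjoint M' B' →
      (∀ x y, mate x = some y → x ∈ M' ∨ y ∈ M' ∨ (x ∉ M' ∪ B' ∧ y ∉ M' ∪ B')) →
      Phi L M' B' < 1 → (∀ b ∈ board \ (M' ∪ B'), Phi L M' B' + Phb L M' B' b < 1) →
      MakerWinsFrom board F Turn.breaker M' B' := by
    intro k
    induction k using Nat.strong_induction_on with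
    | _ k ih =>
    intro M' B' hk hMM hMb hBB hBb hdis hpair hPhi hPhb
    rcases (board \ (M' ∪ B')).eq_empty_or_nonempty with hemp | hne
    · refine fin _ M' B' hMM hMb hBB hdis ?_ hPhi hemp
      intro x y hxy
      rcases hpair x y hxy with h | h | ⟨h, -⟩
      · exact Or.inl h
      · exact Or.inr h
      · exfalso
        have hx := (hmate x y hxy).2.2
        have : x ∈ board \ (M' ∪ B') := mem_sdiff.2 ⟨(mem_sdiff.1 hx).1, h⟩
        rw [hemp] at this
        exact absurd this (notMem_empty x)
    · refine MakerWinsFrom.breaker hne ?_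
      intro b hb
      have hbb := (mem_sdiff.1 hb).1
      have hbMB := (mem_sdiff.1 hb).2
      have hbM : b ∉ M' := fun h => hbMB (mem_union_left _ h)
      have hbB : b ∉ B' := fun h => hbMB (mem_union_right _ h)
      have hB'' : insert b B' ⊆ board := insert_subset hbb hBb
      have hBB'' : B ⊆ insert b B' := hBB.trans (subset_insert _ _)
      have hdis'' : Disjoint M' (insert b B') := by
        rw [disjoint_insert_right]
        exact ⟨hbM, hdis⟩
      have hcard : ∀ m ∈ board \ (M' ∪ insert b B'),
          (board \ (insert m M' ∪ insert b B')).card < k := by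
        intro m hm
        refine lt_of_lt_of_le (card_lt_card ?_) hk
        rw [ssubset_iff_of_subset]
        · exact ⟨b, hb, fun h => (mem_sdiff.1 h).2 (mem_union_right _ (mem_insert_self _ _))⟩
        · intro x hx
          rw [mem_sdiff, mem_union, not_or, mem_insert, mem_insert, not_or, not_or] at hx
          rw [mem_sdiff, mem_union, not_or]
          exact ⟨hx.1, hx.2.1.2, hx.2.2.2⟩
      by_cases hA : ∃ y, mate b = some y ∧ y ∉ M' ∪ B'
      · obtain ⟨y, hy, hyf⟩ := hA
        have hyb := (hmate b y hy).1
        have hne' := (hmate b y hy).2.1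
        have hyboard : y ∈ board := (mem_sdiff.1 (hmate y b hyb).2.2).1
        have hyfree : y ∈ board \ (M' ∪ insert b B') := by
          rw [mem_sdiff, mem_union, mem_insert, not_or, not_or]
          rw [mem_union, not_or] at hyf
          exact ⟨hyboard, hyf.1, fun h => hne' h.symm, hyf.2⟩
        have hbL : ∀ i, b ∉ L i := by
          intro i h
          have := hLm i b h
          rw [hy] at this
          exact absurd this (by simp)
        have hyL : ∀ i, y ∉ L i := by
          intro i h
          have := hLm i y h
          rw [hyb] at this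
          exact absurd this (by simp)
        refine MakerWinsFrom.maker y hyfree ?_
        refine ih _ (hcard y hyfree) _ _ le_rfl (hMM.trans (subset_insert _ _))
          (insert_subset hyboard hMb) hBB'' hB'' ?_ ?_ ?_ ?_
        · rw [disjoint_insert_left]
          refine ⟨?_, hdis''⟩
          exact fun h => (mem_sdiff.1 hyfree).2 (mem_union_right _ h)
        · intro x x' hxx
          by_cases hx1 : x = y
          · left; rw [hx1]; exact mem_insert_self _ _
          by_cases hx2 : x' = y
          · right; left; rw [hx2]; exact mem_insert_self _ _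
          have hxb : x ≠ b := by
            rintro rfl
            rw [hy] at hxx
            exact hx2 (Option.some.inj hxx).symm
          have hxb' : x' ≠ b := by
            rintro rfl
            have := (hmate _ _ hxx).1
            rw [hy] at this
            exact hx1 (Option.some.inj this).symm
          rcases hpair x x' hxx with h | h | ⟨h, h'⟩
          · exact Or.inl (mem_insert_of_mem h)
          · exact Or.inr (Or.inl (mem_insert_of_mem h))
          · refine Or.inr (Or.inr ⟨?_, ?_⟩)
            · rw [mem_union, mem_insert, mem_insert, not_or, not_or, not_or]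
              rw [mem_union, not_or] at h
              exact ⟨⟨hx1, h.1⟩, hxb, h.2⟩
            · rw [mem_union, mem_insert, mem_insert, not_or, not_or, not_or]
              rw [mem_union, not_or] at h'
              exact ⟨⟨hx2, h'.1⟩, hxb', h'.2⟩
        · rw [Phi_out L M' B' b y hbL hyL]
          exact hPhi
        · intro c hc
          rw [Phi_out L M' B' b y hbL hyL, Phb_out L M' B' b y c hbL hyL]
          apply hPhb
          rw [mem_sdiff, mem_union, not_or, mem_insert, mem_insert, not_or, not_or] at hc
          rw [mem_sdiff, mem_union, not_or]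
          exact ⟨hc.1, hc.2.1.2, hc.2.2.2⟩
      · push Not at hA
        have hPhi'' : Phi L M' (insert b B') < 1 := by
          rw [Phi_insB L M' B' b hbB]
          exact hPhb b hb
        -- pairs after the move of Breaker
        have hpair'' : ∀ x y, mate x = some y →
            x ∈ M' ∨ y ∈ M' ∨ (x ∉ M' ∪ insert b B' ∧ y ∉ M' ∪ insert b B') := by
          intro x y hxy
          rcases hpair x y hxy with h | h | ⟨h, h'⟩
          · exact Or.inl h
          · exact Or.inr (Or.inl h)
          · have hxb : x ≠ b := by
              rintro rfl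
              exact h' (hA y hxy)
            have hyb : y ≠ b := by
              rintro rfl
              exact h (hA x (hmate x _ hxy).1)
            refine Or.inr (Or.inr ⟨?_, ?_⟩)
            · rw [mem_union, mem_insert, not_or, not_or]
              rw [mem_union, not_or] at h
              exact ⟨h.1, hxb, h.2⟩
            · rw [mem_union, mem_insert, not_or, not_or]
              rw [mem_union, not_or] at h'
              exact ⟨h'.1, hyb, h'.2⟩
        rcases (board \ (M' ∪ insert b B')).eq_empty_or_nonempty with hemp | hne2
        · refine fin _ M' (insert b B') hMM hMb hBB'' hdis'' ?_ hPhi'' hemp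
          intro x y hxy
          rcases hpair'' x y hxy with h | h | ⟨h, -⟩
          · exact Or.inl h
          · exact Or.inr h
          · exfalso
            have hx := (hmate x y hxy).2.2
            have : x ∈ board \ (M' ∪ insert b B') := mem_sdiff.2 ⟨(mem_sdiff.1 hx).1, h⟩
            rw [hemp] at this
            exact absurd this (notMem_empty x)
        · obtain ⟨m, hm, hmax⟩ := exists_max_image (board \ (M' ∪ insert b B'))
            (fun c => Phb L M' (insert b B') c) hne2
          have hmM : m ∉ M' := fun h => (mem_sdiff.1 hm).2 (mem_union_left _ h)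
          have hmB : m ∉ insert b B' := fun h => (mem_sdiff.1 hm).2 (mem_union_right _ h)
          refine MakerWinsFrom.maker m hm ?_
          refine ih _ (hcard m hm) _ _ le_rfl (hMM.trans (subset_insert _ _))
            (insert_subset (mem_sdiff.1 hm).1 hMb) hBB'' hB'' ?_ ?_ ?_ ?_
          · rw [disjoint_insert_left]
            exact ⟨hmB, hdis''⟩
          · intro x y hxy
            rcases hpair'' x y hxy with h | h | ⟨h, h'⟩
            · exact Or.inl (mem_insert_of_mem h)
            · exact Or.inr (Or.inl (mem_insert_of_mem h))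
            · by_cases hx1 : x = m
              · left; rw [hx1]; exact mem_insert_self _ _
              by_cases hy1 : y = m
              · right; left; rw [hy1]; exact mem_insert_self _ _
              refine Or.inr (Or.inr ⟨?_, ?_⟩)
              · rw [mem_union, mem_insert (a := x) (b := m), not_or, not_or]
                rw [mem_union, not_or] at h
                exact ⟨⟨hx1, h.1⟩, h.2⟩
              · rw [mem_union, mem_insert (a := y) (b := m), not_or, not_or]
                rw [mem_union, not_or] at h'
                exact ⟨⟨hy1, h'.1⟩, h'.2⟩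
          · rw [Phi_insM]
            have := Phb_nonneg L M' (insert b B') m
            linarith
          · intro c hc
            rw [Phi_insM]
            have h1 := Phb_insM_le L M' (insert b B') m c
            have hc' : c ∈ board \ (M' ∪ insert b B') := by
              rw [mem_sdiff, mem_union, not_or, mem_insert (a := c) (b := m), not_or] at hc
              rw [mem_sdiff, mem_union, not_or]
              exact ⟨hc.1, hc.2.1.2, hc.2.2⟩
            have h2 := hmax c hc'
            linarith
  have hPhi0 : Phi L M B ≤ (∑ i, (1 / 2 : ℝ) ^ (L i).card) * 2 ^ B.card := by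
    unfold Phi
    rw [sum_mul]
    refine sum_le_sum fun i _ => ?_
    have hpos : (0 : ℝ) ≤ (1 / 2 : ℝ) ^ (L i).card * 2 ^ B.card := by positivity
    split_ifs
    · have h1 : (L i).card ≤ (L i \ B).card + B.card := by
        have := card_le_card_sdiff_add_card (s := L i) (t := B)
        omega
      have h2 : (1 / 2 : ℝ) ^ ((L i \ B).card + B.card) ≤ (1 / 2 : ℝ) ^ (L i).card :=
        pow_le_pow_of_le_one (by norm_num) (by norm_num) h1
      have h3 : (1 / 2 : ℝ) ^ (L i \ B).card =
          (1 / 2 : ℝ) ^ ((L i \ B).card + B.card) * 2 ^ B.card := by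
        rw [pow_add, mul_assoc, ← mul_pow]
        norm_num
      rw [h3]
      exact mul_le_mul_of_nonneg_right h2 (by positivity)
    · exact hpos
  have hPhi1 : Phi L M B < 1 / 2 := lt_of_le_of_lt hPhi0 hsum
  refine main _ M B le_rfl (Subset.refl _) hM (Subset.refl _) hB hMB ?_ (by linarith) ?_
  · intro x y hxy
    have h1 := (hmate x y hxy).2.2
    have h2 := (hmate y x (hmate x y hxy).1).2.2
    exact Or.inr (Or.inr ⟨(mem_sdiff.1 h1).2, (mem_sdiff.1 h2).2⟩)
  · intro b _
    have := Phb_le L M B b
    linarith

end Pool.Agent.TH267.MB
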