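import Pool.Agent.TH451.MB.Stmt

/-! MB-FAM4 (job 1989, project MP_9916e0_co): weights for the 2-lift property. -/

namespace Pool.Agent.TH267.MB
open Pool.Agent.TH451.MB Finset

/-- the weight of a colour -/
noncomputable def w4 {n : ℕ} (R : Finset (Fin n)) (z : Fin n) (v : Fin 3) : ℝ :=
  if z ∈ R then (if v = 0 then 1/2 else if v = 1 then 1/4 else 1/16)
  else (if v = 2 then 1 else 0)

lemma w4_nonneg {n : ℕ} (R : Finset (Fin n)) (z : Fin n) (v : Fin 3) : 0 ≤ w4 R z v := by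
  unfold w4; split_ifs <;> norm_num

lemma w4_sum {n : ℕ} (R : Finset (Fin n)) (z : Fin n) :
    ∑ v, w4 R z v = if z ∈ R then 13/16 else 1 := by
  unfold w4
  by_cases h : z ∈ R
  · simp [h, Fin.sum_univ_three]; norm_num
  · simp [h]

lemma w4_total {n : ℕ} (R : Finset (Fin n)) :
    ∑ c : Fin n → Fin 3, ∏ z, w4 R z (c z) = (13/16 : ℝ) ^ R.card := by
  have h := Finset.prod_univ_sum (fun _ : Fin n => (univ : Finset (Fin 3)))
    (fun z v => w4 R z v)
  rw [Fintype.piFinset_univ] at h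
  rw [← h]
  simp only [w4_sum]
  rw [Finset.prod_ite, Finset.prod_const, Finset.prod_const_one, mul_one]
  congr 2
  ext z
  simp

/-- the edges of an index -/
def L4 {n : ℕ} (x y y' : Fin n) (c : Fin n → Fin 3) : Finset (Sym2 (Fin n)) :=
  ((univ.filter (fun z => c z = 0)).image (fun z => s(x, z))) ∪
  (((univ.filter (fun z => c z = 1)).image (fun z => s(y, z))) ∪
   ((univ.filter (fun z => c z = 1)).image (fun z => s(y', z))))

lemma L4_card {n : ℕ} {x y y' : Fin n} {c : Fin n → Fin 3} (hx : c x = 2) (hy : c y = 2)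
    (hxy : x ≠ y) (hxy' : x ≠ y') (hyy' : y ≠ y') :
    (L4 x y y' c).card = (univ.filter (fun z => c z = 0)).card +
      2 * (univ.filter (fun z => c z = 1)).card := by
  unfold L4
  have h20 : (2 : Fin 3) ≠ 0 := by decide
  have h21 : (2 : Fin 3) ≠ 1 := by decide
  have inj : ∀ a : Fin n, Function.Injective (fun z : Fin n => s(a, z)) := by
    intro a z z' h
    simp only [Sym2.eq_iff] at h
    rcases h with ⟨_, h⟩ | ⟨h1, h2⟩
    · exact h
    · rw [← h1, h2]
  rw [card_union_of_disjoint, card_union_of_disjoint, card_image_of_injective _ (inj _),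
    card_image_of_injective _ (inj _), card_image_of_injective _ (inj _)]
  · ring
  · rw [Finset.disjoint_left]
    intro e he he'
    simp only [mem_image, mem_filter, mem_univ, true_and] at he he'
    obtain ⟨z, hz, rfl⟩ := he
    obtain ⟨z', hz', h⟩ := he'
    rw [Sym2.eq_iff] at h
    rcases h with ⟨h1, h2⟩ | ⟨h1, h2⟩
    · exact hyy' h1.symm
    · rw [h2, hy] at hz'; exact h21 hz'
  · rw [Finset.disjoint_left]
    intro e he he'
    simp only [mem_union, mem_image, mem_filter, mem_univ, true_and] at he he'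
    obtain ⟨z, hz, rfl⟩ := he
    rcases he' with ⟨z', hz', h⟩ | ⟨z', hz', h⟩
    · rw [Sym2.eq_iff] at h
      rcases h with ⟨h1, h2⟩ | ⟨h1, h2⟩
      · exact hxy h1.symm
      · rw [h2, hx] at hz'; exact h21 hz'
    · rw [Sym2.eq_iff] at h
      rcases h with ⟨h1, h2⟩ | ⟨h1, h2⟩
      · exact hxy' h1.symm
      · rw [h2, hx] at hz'; exact h21 hz'

/-- the index set -/
noncomputable def S4 {n : ℕ} (H : Finset (Fin n)) (Rs : Finset (Finset (Fin n))) :
    Finset (Finset (Fin n) × (Fin n × Fin n × Fin n) × (Fin n → Fin 3)) := by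
  classical exact (Rs ×ˢ (univ ×ˢ univ)).filter (fun p =>
    p.2.1.1 ∉ H ∧ p.2.1.2.1 ∉ H ∧ p.2.1.2.2 ∉ H ∧
    p.2.1.1 ≠ p.2.1.2.1 ∧ p.2.1.1 ≠ p.2.1.2.2 ∧ p.2.1.2.1 ≠ p.2.1.2.2 ∧
    p.2.2 p.2.1.1 = 2 ∧ p.2.2 p.2.1.2.1 = 2 ∧ p.2.2 p.2.1.2.2 = 2 ∧
    (∀ z, z ∉ p.1 → p.2.2 z = 2) ∧
    40 * (p.1.filter (fun z => p.2.2 z = 2)).card ≤ p.1.card + 120)

lemma mem_S4 {n : ℕ} {H : Finset (Fin n)} {Rs : Finset (Finset (Fin n))}
    {R : Finset (Fin n)} {x y y' : Fin n} {c : Fin n → Fin 3} :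
    (R, (x, y, y'), c) ∈ S4 H Rs ↔ R ∈ Rs ∧ x ∉ H ∧ y ∉ H ∧ y' ∉ H ∧ x ≠ y ∧ x ≠ y' ∧ y ≠ y' ∧
      c x = 2 ∧ c y = 2 ∧ c y' = 2 ∧ (∀ z, z ∉ R → c z = 2) ∧
      40 * (R.filter (fun z => c z = 2)).card ≤ R.card + 120 := by
  classical
  unfold S4
  simp only [mem_filter, mem_product, mem_univ, and_true]

lemma weight_le {n : ℕ} {R : Finset (Fin n)} {c : Fin n → Fin 3}
    (hR : ∀ z, z ∉ R → c z = 2)
    (h40 : 40 * (R.filter (fun z => c z = 2)).card ≤ R.card + 120) :
    (1/2 : ℝ) ^ ((univ.filter (fun z => c z = 0)).card +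
      2 * (univ.filter (fun z => c z = 1)).card) ≤
      (134/125 : ℝ) ^ (R.card + 120) * ∏ z, w4 R z (c z) := by
  classical
  have e0 : (univ.filter (fun z => c z = 0)) = R.filter (fun z => c z = 0) := by
    ext z
    simp only [mem_filter, mem_univ, true_and]
    constructor
    · intro h
      refine ⟨?_, h⟩
      by_contra hz
      rw [hR z hz] at h
      exact absurd h (by decide)
    · exact fun h => h.2
  have e1 : (univ.filter (fun z => c z = 1)) = R.filter (fun z => c z = 1) := by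
    ext z
    simp only [mem_filter, mem_univ, true_and]
    constructor
    · intro h
      refine ⟨?_, h⟩
      by_contra hz
      rw [hR z hz] at h
      exact absurd h (by decide)
    · exact fun h => h.2
  rw [e0, e1]
  have hprod : ∏ z, w4 R z (c z) = ∏ z ∈ R, (if c z = 0 then (1/2 : ℝ) else if c z = 1 then 1/4
      else 1/16) := by
    rw [← Finset.prod_subset (Finset.subset_univ R)]
    · apply Finset.prod_congr rfl
      intro z hz
      unfold w4
      rw [if_pos hz]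
    · intro z _ hz
      unfold w4
      rw [if_neg hz, if_pos (hR z hz)]
  rw [hprod]
  have hsplit : ∏ z ∈ R, (if c z = 0 then (1/2 : ℝ) else if c z = 1 then 1/4 else 1/16) =
      (1/2 : ℝ) ^ (R.filter (fun z => c z = 0)).card *
      (1/4) ^ (R.filter (fun z => c z = 1)).card *
      (1/16) ^ (R.filter (fun z => c z = 2)).card := by
    have f1 : (R.filter (fun z => ¬ c z = 0)).filter (fun z => c z = 1) =
        R.filter (fun z => c z = 1) := by
      ext z
      simp only [mem_filter]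
      constructor
      · rintro ⟨⟨h1, h2⟩, h3⟩; exact ⟨h1, h3⟩
      · rintro ⟨h1, h2⟩; exact ⟨⟨h1, by rw [h2]; decide⟩, h2⟩
    have f2 : (R.filter (fun z => ¬ c z = 0)).filter (fun z => ¬ c z = 1) =
        R.filter (fun z => c z = 2) := by
      ext z
      simp only [mem_filter]
      constructor
      · rintro ⟨⟨h1, h2⟩, h3⟩
        refine ⟨h1, ?_⟩
        generalize c z = v at h2 h3 ⊢
        fin_cases v <;> simp_all
      · rintro ⟨h1, h2⟩; exact ⟨⟨h1, by rw [h2]; decide⟩, by rw [h2]; decide⟩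
    rw [Finset.prod_ite, Finset.prod_const, Finset.prod_ite, Finset.prod_const,
      Finset.prod_const, f1, f2, mul_assoc]
  rw [hsplit]
  set a := (R.filter (fun z => c z = 0)).card
  set b := (R.filter (fun z => c z = 1)).card
  set d := (R.filter (fun z => c z = 2)).card
  have h16 : (16 : ℝ) ^ d ≤ (134/125 : ℝ) ^ (R.card + 120) := by
    calc (16 : ℝ) ^ d ≤ ((134/125 : ℝ) ^ 40) ^ d := by
          apply pow_le_pow_left₀ (by norm_num)
          norm_num
      _ = (134/125 : ℝ) ^ (40 * d) := by rw [pow_mul]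
      _ ≤ _ := pow_le_pow_right₀ (by norm_num) h40
  have hpos : (0:ℝ) ≤ (1/2 : ℝ) ^ a * (1/4) ^ b * (1/16) ^ d := by positivity
  calc (1/2 : ℝ) ^ (a + 2 * b) = (1/2 : ℝ) ^ a * (1/4) ^ b * ((1/16) ^ d * 16 ^ d) := by
        rw [← mul_pow, pow_add, pow_mul]; norm_num
    _ = 16 ^ d * ((1/2 : ℝ) ^ a * (1/4) ^ b * (1/16) ^ d) := by ring
    _ ≤ _ := mul_le_mul_of_nonneg_right h16 hpos

lemma numeric4 {n s : ℕ} (hn : 8 ≤ n) (hs : 50 * (Nat.log 2 n + 1) ≤ s) :
    (n : ℝ) ^ 4 * ((134/125 : ℝ) ^ 120 * ((134/125) * (13/16)) ^ s) ≤ 1/100 := by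
  have hn0 : n ≠ 0 := by omega
  have hl : 3 ≤ Nat.log 2 n := by
    have : Nat.log 2 8 ≤ Nat.log 2 n := Nat.log_mono_right hn
    have h8 : Nat.log 2 8 = 3 := by
      rw [show (8:ℕ) = 2 ^ 3 by norm_num, Nat.log_pow (by norm_num)]
    omega
  set l := Nat.log 2 n + 1 with hl'
  have hnl : (n : ℝ) ≤ 2 ^ l := by
    have : n < 2 ^ l := Nat.lt_pow_succ_log_self (by norm_num) n
    exact_mod_cast this.le
  have h1 : (n : ℝ) ^ 4 ≤ 16 ^ l := by
    calc (n : ℝ) ^ 4 ≤ (2 ^ l) ^ 4 := pow_le_pow_left₀ (by positivity) hnl 4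
      _ = 16 ^ l := by rw [← pow_mul, mul_comm, pow_mul]; norm_num
  have h2 : ((134/125 : ℝ) * (13/16)) ^ s ≤ (1/512) ^ l := by
    calc ((134/125 : ℝ) * (13/16)) ^ s ≤ ((134/125 : ℝ) * (13/16)) ^ (50 * l) :=
          pow_le_pow_of_le_one (by norm_num) (by norm_num) hs
      _ = (((134/125 : ℝ) * (13/16)) ^ 50) ^ l := by rw [pow_mul]
      _ ≤ (1/512) ^ l := by
          apply pow_le_pow_left₀ (by norm_num)
          norm_num
  have h3 : (134/125 : ℝ) ^ 120 ≤ 5000 := by norm_num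
  have h4 : (1/32 : ℝ) ^ l ≤ (1/32) ^ 4 :=
    pow_le_pow_of_le_one (by norm_num) (by norm_num) (by omega)
  calc (n : ℝ) ^ 4 * ((134/125 : ℝ) ^ 120 * ((134/125) * (13/16)) ^ s)
      ≤ 16 ^ l * (5000 * (1/512) ^ l) := by
        apply mul_le_mul h1 _ (by positivity) (by positivity)
        exact mul_le_mul h3 h2 (by positivity) (by norm_num)
    _ = 5000 * (1/32 : ℝ) ^ l := by
        rw [show (1/32 : ℝ) = 16 * (1/512) by norm_num, mul_pow]; ring
    _ ≤ 5000 * (1/32 : ℝ) ^ 4 := by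
        apply mul_le_mul_of_nonneg_left h4 (by norm_num)
    _ ≤ 1/100 := by norm_num

theorem fam_p4 : StFam4 := by
  classical
  refine ⟨50, 8, ?_⟩
  intro n hn s hs H Rs hRs hR
  refine ⟨{p // p ∈ S4 H Rs}, inferInstance,
    fun p => L4 p.1.2.1.1 p.1.2.1.2.1 p.1.2.1.2.2 p.1.2.2, ?_, ?_, ?_⟩
  · rintro ⟨⟨R, ⟨x, y, y'⟩, c⟩, hp⟩ e he
    rw [mem_S4] at hp
    obtain ⟨hRR, hxH, hyH, hy'H, hxy, hxy', hyy', hcx, hcy, hcy', hout, h40⟩ := hp
    simp only [L4, mem_union, mem_image, mem_filter, mem_univ, true_and] at he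
    have key : ∀ z, c z ≠ 2 → z ∉ H ∧ z ≠ x ∧ z ≠ y ∧ z ≠ y' := by
      intro z hz
      refine ⟨?_, ?_, ?_, ?_⟩
      · intro hzH
        have hzR : z ∈ R := by
          by_contra h
          exact hz (hout z h)
        exact (Finset.disjoint_left.mp (hR R hRR).2 hzR) hzH
      · rintro rfl; exact hz hcx
      · rintro rfl; exact hz hcy
      · rintro rfl; exact hz hcy'
    rcases he with ⟨z, hz, rfl⟩ | ⟨z, hz, rfl⟩ | ⟨z, hz, rfl⟩
    · obtain ⟨h1, h2, h3, h4⟩ := key z (by rw [hz]; decide)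
      exact ⟨x, z, h2.symm, hxH, h1, rfl⟩
    · obtain ⟨h1, h2, h3, h4⟩ := key z (by rw [hz]; decide)
      exact ⟨y, z, h3.symm, hyH, h1, rfl⟩
    · obtain ⟨h1, h2, h3, h4⟩ := key z (by rw [hz]; decide)
      exact ⟨y', z, h4.symm, hy'H, h1, rfl⟩
  · -- the weight
    set g : Finset (Fin n) × (Fin n × Fin n × Fin n) × (Fin n → Fin 3) → ℝ :=
      fun p => (134/125 : ℝ) ^ (p.1.card + 120) * ∏ z, w4 p.1 z (p.2.2 z) with hg
    have hgnn : ∀ p, 0 ≤ g p := fun p => by
      apply mul_nonneg (by positivity)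
      exact Finset.prod_nonneg (fun z _ => w4_nonneg _ _ _)
    rw [Finset.sum_coe_sort (S4 H Rs)
      (fun p => (1/2 : ℝ) ^ (L4 p.2.1.1 p.2.1.2.1 p.2.1.2.2 p.2.2).card)]
    calc ∑ p ∈ S4 H Rs, (1/2 : ℝ) ^ (L4 p.2.1.1 p.2.1.2.1 p.2.1.2.2 p.2.2).card
        ≤ ∑ p ∈ S4 H Rs, g p := by
          apply Finset.sum_le_sum
          rintro ⟨R, ⟨x, y, y'⟩, c⟩ hp
          rw [mem_S4] at hp
          obtain ⟨hRR, hxH, hyH, hy'H, hxy, hxy', hyy', hcx, hcy, hcy', hout, h40⟩ := hp
          simp only [hg]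
          rw [L4_card hcx hcy hxy hxy' hyy']
          exact weight_le hout h40
      _ ≤ ∑ p ∈ Rs ×ˢ (univ ×ˢ univ), g p := by
          apply Finset.sum_le_sum_of_subset_of_nonneg
          · unfold S4; exact Finset.filter_subset _ _
          · intro p _ _; exact hgnn p
      _ = ∑ R ∈ Rs, ∑ q : Fin n × Fin n × Fin n, ∑ c : Fin n → Fin 3,
            (134/125 : ℝ) ^ (R.card + 120) * ∏ z, w4 R z (c z) := by
          rw [Finset.sum_product]
          apply Finset.sum_congr rfl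
          intro R _
          rw [Finset.sum_product]
      _ = ∑ R ∈ Rs, (n : ℝ) ^ 3 * ((134/125 : ℝ) ^ (R.card + 120) * (13/16) ^ R.card) := by
          apply Finset.sum_congr rfl
          intro R _
          rw [← Finset.mul_sum, w4_total, Finset.sum_const, nsmul_eq_mul]
          congr 1
          rw [Finset.card_univ, Fintype.card_prod, Fintype.card_prod, Fintype.card_fin]
          push_cast; ring
      _ ≤ ∑ R ∈ Rs, (n : ℝ) ^ 3 * ((134/125 : ℝ) ^ 120 * ((134/125) * (13/16)) ^ s) := by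
          apply Finset.sum_le_sum
          intro R hRR
          apply mul_le_mul_of_nonneg_left _ (by positivity)
          calc (134/125 : ℝ) ^ (R.card + 120) * (13/16) ^ R.card
              = (134/125 : ℝ) ^ 120 * ((134/125) * (13/16)) ^ R.card := by
                rw [mul_pow, pow_add]; ring
            _ ≤ _ := by
                apply mul_le_mul_of_nonneg_left _ (by positivity)
                exact pow_le_pow_of_le_one (by norm_num) (by norm_num) (hR R hRR).1
      _ = Rs.card * ((n : ℝ) ^ 3 * ((134/125 : ℝ) ^ 120 * ((134/125) * (13/16)) ^ s)) := by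
          rw [Finset.sum_const, nsmul_eq_mul]
      _ ≤ n * ((n : ℝ) ^ 3 * ((134/125 : ℝ) ^ 120 * ((134/125) * (13/16)) ^ s)) := by
          apply mul_le_mul_of_nonneg_right _ (by positivity)
          exact_mod_cast hRs
      _ = (n : ℝ) ^ 4 * ((134/125 : ℝ) ^ 120 * ((134/125) * (13/16)) ^ s) := by ring
      _ ≤ 1/100 := numeric4 hn hs
  · intro G hits R hRR x y y' hxH hyH hy'H hxy hxy' hyy'
    by_contra hcon
    push Not at hcon
    set c : Fin n → Fin 3 := fun z =>
      if z ∉ R ∨ z ∈ lnb G x y y' R ∨ z = x ∨ z = y ∨ z = y' then 2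
      else if G.Adj x z then 1 else 0 with hc
    have hmem : (R, (x, y, y'), c) ∈ S4 H Rs := by
      rw [mem_S4]
      refine ⟨hRR, hxH, hyH, hy'H, hxy, hxy', hyy', ?_, ?_, ?_, ?_, ?_⟩
      · simp [hc]
      · simp [hc]
      · simp [hc]
      · intro z hz; simp [hc, hz]
      · have hsub : R.filter (fun z => c z = 2) ⊆ lnb G x y y' R ∪ {x, y, y'} := by
          intro z hz
          rw [mem_filter] at hz
          by_contra hz'
          simp only [mem_union, mem_insert, mem_singleton, not_or] at hz'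
          have : c z ≠ 2 := by
            simp only [hc]
            rw [if_neg (by
              push Not
              exact ⟨hz.1, hz'.1, hz'.2.1, hz'.2.2.1, hz'.2.2.2⟩)]
            split_ifs <;> decide
          exact this hz.2
        have h1 := Finset.card_le_card hsub
        have h2 : (lnb G x y y' R ∪ {x, y, y'}).card ≤ (lnb G x y y' R).card + 3 :=
          (Finset.card_union_le _ _).trans (Nat.add_le_add_left Finset.card_le_three _)
        omega
    obtain ⟨e, he, heG⟩ := hits ⟨_, hmem⟩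
    simp only [L4, mem_union, mem_image, mem_filter, mem_univ, true_and] at he
    have hval : ∀ z, c z ≠ 2 → z ∈ R ∧ z ∉ lnb G x y y' R ∧ (c z = 1 ↔ G.Adj x z) := by
      intro z hz
      have hn2 : ¬ (z ∉ R ∨ z ∈ lnb G x y y' R ∨ z = x ∨ z = y ∨ z = y') := by
        intro h
        apply hz
        simp only [hc]
        rw [if_pos h]
      have hn3 := hn2
      push Not at hn3
      refine ⟨hn3.1, hn3.2.1, ?_⟩
      simp only [hc]
      rw [if_neg hn2]
      by_cases h : G.Adj x z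
      · simp [h]
      · simp [h]
    rcases he with ⟨z, hz, rfl⟩ | ⟨z, hz, rfl⟩ | ⟨z, hz, rfl⟩
    · obtain ⟨h1, h2, h3⟩ := hval z (by rw [hz]; decide)
      rw [SimpleGraph.mem_edgeSet] at heG
      rw [h3.mpr heG] at hz
      exact absurd hz (by decide)
    · obtain ⟨h1, h2, h3⟩ := hval z (by rw [hz]; decide)
      rw [SimpleGraph.mem_edgeSet] at heG
      exact h2 (mem_lnb.mpr ⟨h1, h3.mp hz, Or.inl heG⟩)
    · obtain ⟨h1, h2, h3⟩ := hval z (by rw [hz]; decide)
      rw [SimpleGraph.mem_edgeSet] at heG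
      exact h2 (mem_lnb.mpr ⟨h1, h3.mp hz, Or.inr heG⟩)

end Pool.Agent.TH267.MB
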