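import Pool.Agent.TH451.MB.Stmt

/-! MB-GAME (job 1991, project MP_9916e0_co): the strategy lemma. -/

namespace Pool.Agent.TH267.MB
open Pool.Agent.TH451.MB Finset

/-- `e` and `e'` are the two edges of the pair of some vertex `x`. -/
def PRel {n : ℕ} (pr : Fin n → Option (Fin n × Fin n)) (e e' : Sym2 (Fin n)) : Prop :=
  ∃ x q q', pr x = some (q, q') ∧ ((e = s(x, q) ∧ e' = s(x, q')) ∨ (e = s(x, q') ∧ e' = s(x, q)))

lemma PRel.symm {n : ℕ} {pr : Fin n → Option (Fin n × Fin n)} {e e' : Sym2 (Fin n)}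
    (h : PRel pr e e') : PRel pr e' e := by
  obtain ⟨x, q, q', hp, h⟩ := h
  refine ⟨x, q, q', hp, ?_⟩
  rcases h with ⟨h1, h2⟩ | ⟨h1, h2⟩
  · exact Or.inr ⟨h2, h1⟩
  · exact Or.inl ⟨h2, h1⟩

lemma sym2_right {n : ℕ} {x q1 q2 : Fin n} (h : s(x, q1) = s(x, q2)) : q1 = q2 := by
  rw [Sym2.eq_iff] at h
  rcases h with ⟨_, h⟩ | ⟨h1, h2⟩
  · exact h
  · rw [h2, ← h1]

lemma PRel.unique {n : ℕ} {pr : Fin n → Option (Fin n × Fin n)} {H : Finset (Fin n)}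
    (hpr : ∀ x q q', pr x = some (q, q') → x ∉ H ∧ q ∈ H ∧ q' ∈ H ∧ q ≠ q')
    {e e1 e2 : Sym2 (Fin n)} (h1 : PRel pr e e1) (h2 : PRel pr e e2) : e1 = e2 := by
  obtain ⟨x, q, q', hp, h⟩ := h1
  obtain ⟨x2, p, p', hp2, h'⟩ := h2
  obtain ⟨hxH, hqH, hq'H, hqq'⟩ := hpr _ _ _ hp
  obtain ⟨hx2H, hpH, hp'H, hpp'⟩ := hpr _ _ _ hp2
  have key : ∀ a b : Fin n, a ∈ H → b ∈ H → s(x, a) = s(x2, b) → x = x2 ∧ a = b := by
    intro a b ha hb hab
    rw [Sym2.eq_iff] at hab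
    rcases hab with h | ⟨h1, h2⟩
    · exact h
    · exact absurd (h1 ▸ hb) hxH
  have fin : x = x2 → q = p ∧ q' = p' := by
    intro hx
    rw [← hx, hp] at hp2
    simpa using hp2
  rcases h with ⟨h1, h2⟩ | ⟨h1, h2⟩ <;> rcases h' with ⟨h3, h4⟩ | ⟨h3, h4⟩
  · obtain ⟨hx, _⟩ := key q p hqH hpH (h1.symm.trans h3)
    obtain ⟨_, hq⟩ := fin hx
    rw [h2, h4, hx, hq]
  · obtain ⟨hx, hq⟩ := key q p' hqH hp'H (h1.symm.trans h3)
    obtain ⟨hq1, hq2⟩ := fin hx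
    exact absurd (hq.trans hq2.symm) hqq'
  · obtain ⟨hx, hq⟩ := key q' p hq'H hpH (h1.symm.trans h3)
    obtain ⟨hq1, hq2⟩ := fin hx
    exact absurd (hq1.trans hq.symm) hqq'
  · obtain ⟨hx, _⟩ := key q' p' hq'H hp'H (h1.symm.trans h3)
    obtain ⟨hq, _⟩ := fin hx
    rw [h2, h4, hx, hq]

open Classical in
/-- the pairing -/
noncomputable def mt {n : ℕ} (pr : Fin n → Option (Fin n × Fin n)) (e : Sym2 (Fin n)) :
    Option (Sym2 (Fin n)) :=
  if h : ∃ e', PRel pr e e' then some h.choose else none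

lemma mt_eq_some {n : ℕ} {pr : Fin n → Option (Fin n × Fin n)} {H : Finset (Fin n)}
    (hpr : ∀ x q q', pr x = some (q, q') → x ∉ H ∧ q ∈ H ∧ q' ∈ H ∧ q ≠ q')
    {e e' : Sym2 (Fin n)} : mt pr e = some e' ↔ PRel pr e e' := by
  unfold mt
  constructor
  · intro h
    split_ifs at h with h'
    · rw [Option.some_inj] at h
      rw [← h]
      exact h'.choose_spec
  · intro h
    have h' : ∃ e', PRel pr e e' := ⟨e', h⟩
    rw [dif_pos h', Option.some_inj]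
    exact PRel.unique hpr h'.choose_spec h

lemma mt_eq_none {n : ℕ} {pr : Fin n → Option (Fin n × Fin n)}
    {e : Sym2 (Fin n)} (h : ∀ e', ¬ PRel pr e e') : mt pr e = none := by
  unfold mt
  rw [dif_neg]
  rintro ⟨e', he'⟩
  exact h e' he'

lemma mem_board {n : ℕ} {a b : Fin n} : s(a, b) ∈ board n ↔ a ≠ b := by
  simp [board]

theorem game_static (hes : StES) (h1 : StFam1) (h2 : StFam2) (h3 : StFam3) (h4 : StFam4) :
    StGame := by
  obtain ⟨C1, n1, h1⟩ := h1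
  obtain ⟨C2, n2, h2⟩ := h2
  obtain ⟨C3, n3, h3⟩ := h3
  obtain ⟨C4, n4, h4⟩ := h4
  refine ⟨C1 + C2 + C3 + C4, n1 + n2 + n3 + n4, ?_⟩
  intro n hn s hs T H pr D Rs M0 B0 hB0 hM0b hB0b hdisj hpr hDc hD hRsc hRs hstatic
  have hsC : (C1 + C2 + C3 + C4) * (Nat.log 2 n + 1) = C1 * (Nat.log 2 n + 1) +
      C2 * (Nat.log 2 n + 1) + C3 * (Nat.log 2 n + 1) + C4 * (Nat.log 2 n + 1) := by ring
  rw [hsC] at hs
  obtain ⟨ι1, _, L1, hL1, hw1, hh1⟩ := h1 n (by omega) s (by omega) D hDc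
    (fun d hd => ⟨(hD d hd).1, (hD d hd).2.1⟩)
  obtain ⟨ι2, _, L2, hL2, hw2, hh2⟩ := h2 n (by omega) s (by omega) H
  obtain ⟨ι3, _, L3, hL3, hw3, hh3⟩ := h3 n (by omega) s (by omega) H
  obtain ⟨ι4, _, L4, hL4, hw4, hh4⟩ := h4 n (by omega) s (by omega) H Rs hRsc hRs
  have hpr' : ∀ x q q', pr x = some (q, q') → x ∉ H ∧ q ∈ H ∧ q' ∈ H ∧ q ≠ q' := by
    intro x q q' h
    obtain ⟨a, b, c, d, _⟩ := hpr x q q' h
    exact ⟨a, b, c, d⟩
  have hout : ∀ e : Sym2 (Fin n), (∃ a b, a ≠ b ∧ a ∉ H ∧ b ∉ H ∧ e = s(a, b)) →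
      e ∈ board n ∧ mt pr e = none := by
    rintro e ⟨a, b, hab, ha, hb, rfl⟩
    refine ⟨mem_board.mpr hab, mt_eq_none ?_⟩
    rintro e' ⟨x, q, q', hp, h⟩
    obtain ⟨hxH, hqH, hq'H, hqq'⟩ := hpr' _ _ _ hp
    have key : ∀ c ∈ H, s(a, b) ≠ s(x, c) := by
      intro c hc h
      rw [Sym2.eq_iff] at h
      rcases h with ⟨_, h⟩ | ⟨h, _⟩
      · exact hb (h ▸ hc)
      · exact ha (h ▸ hc)
    rcases h with ⟨h, _⟩ | ⟨h, _⟩
    · exact key q hqH h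
    · exact key q' hq'H h
  have hin : ∀ i, ∀ e ∈ L1 i, e ∈ board n ∧ mt pr e = none := by
    intro i e he
    obtain ⟨d, hd, r, hr, rfl⟩ := hL1 i e he
    obtain ⟨_, hdd, hdH, hdp⟩ := hD d hd
    have hrH : r ∉ H := Finset.disjoint_left.mp hdH hr
    refine ⟨mem_board.mpr (by rintro h; exact hdd (h ▸ hr)), mt_eq_none ?_⟩
    rintro e' ⟨x, q, q', hp, h⟩
    obtain ⟨hxH, hqH, hq'H, hqq'⟩ := hpr' _ _ _ hp
    rcases h with ⟨h, _⟩ | ⟨h, _⟩
    · rw [Sym2.eq_iff] at h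
      rcases h with ⟨_, h⟩ | ⟨h, h'⟩
      · exact hrH (h ▸ hqH)
      · exact (hdp r hr q q' (h' ▸ hp)).1 h
    · rw [Sym2.eq_iff] at h
      rcases h with ⟨_, h⟩ | ⟨h, h'⟩
      · exact hrH (h ▸ hq'H)
      · exact (hdp r hr q q' (h' ▸ hp)).2 h
  set L : ι1 ⊕ (ι2 ⊕ (ι3 ⊕ ι4)) → Finset (Sym2 (Fin n)) :=
    Sum.elim L1 (Sum.elim L2 (Sum.elim L3 L4)) with hLdef
  have hLall : ∀ i, ∀ e ∈ L i, e ∈ board n ∧ mt pr e = none := by
    rintro (i | i | i | i) e he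
    · exact hin i e he
    · exact hout e (hL2 i e he)
    · exact hout e (hL3 i e he)
    · exact hout e (hL4 i e he)
  apply hes (Sym2 (Fin n)) (ι1 ⊕ (ι2 ⊕ (ι3 ⊕ ι4))) (board n) (copies T) M0 B0 hM0b hB0b hdisj
    (mt pr) ?_ L (fun i e he => (hLall i e he).1) (fun i e he => (hLall i e he).2) ?_ ?_
  · intro e e' h
    rw [mt_eq_some hpr'] at h
    refine ⟨(mt_eq_some hpr').mpr h.symm, ?_, ?_⟩
    · obtain ⟨x, q, q', hp, h⟩ := h
      obtain ⟨hxH, hqH, hq'H, hqq'⟩ := hpr' _ _ _ hp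
      rcases h with ⟨h, h'⟩ | ⟨h, h'⟩
      · rw [h, h']
        intro hh
        exact hqq' (sym2_right hh)
      · rw [h, h']
        intro hh
        exact hqq' (sym2_right hh).symm
    · obtain ⟨x, q, q', hp, h⟩ := h
      obtain ⟨hxH, hqH, hq'H, hqq', hf1, hf2⟩ := hpr _ _ _ hp
      rcases h with ⟨h, h'⟩ | ⟨h, h'⟩
      · rw [h, Finset.mem_sdiff]
        exact ⟨mem_board.mpr (by rintro rfl; exact hxH hqH), hf1⟩
      · rw [h, Finset.mem_sdiff]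
        exact ⟨mem_board.mpr (by rintro rfl; exact hxH hq'H), hf2⟩
  · have hsum : ∑ i, (1/2 : ℝ) ^ (L i).card ≤ 4/100 := by
      rw [Fintype.sum_sum_type, Fintype.sum_sum_type, Fintype.sum_sum_type]
      simp only [hLdef, Sum.elim_inl, Sum.elim_inr]
      linarith
    have hpos : 0 ≤ ∑ i, (1/2 : ℝ) ^ (L i).card := Finset.sum_nonneg (fun i _ => by positivity)
    have hB : (2 : ℝ) ^ B0.card ≤ 8 := by
      calc (2 : ℝ) ^ B0.card ≤ 2 ^ 3 := pow_le_pow_right₀ (by norm_num) hB0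
        _ = 8 := by norm_num
    calc (∑ i, (1/2 : ℝ) ^ (L i).card) * 2 ^ B0.card ≤ 4/100 * 8 :=
          mul_le_mul hsum hB (by positivity) (by norm_num)
      _ < 1/2 := by norm_num
  · intro M' hMM' hM'b _ hpair hhit
    set G : SimpleGraph (Fin n) := SimpleGraph.fromEdgeSet (M' : Set (Sym2 (Fin n))) with hG
    have hGadj : ∀ a b, G.Adj a b ↔ s(a, b) ∈ M' ∧ a ≠ b := by
      intro a b
      rw [hG, SimpleGraph.fromEdgeSet_adj, Finset.mem_coe]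
    have hGedge : ∀ e, e ∈ M' → e ∈ G.edgeSet := by
      intro e he
      induction e with
      | _ a b =>
        rw [SimpleGraph.mem_edgeSet, hGadj]
        exact ⟨he, mem_board.mp (hM'b he)⟩
    have hits1 : Hits G L1 := by
      intro i
      obtain ⟨e, he, he'⟩ := hhit (Sum.inl i)
      exact ⟨e, he, hGedge e he'⟩
    have hits2 : Hits G L2 := by
      intro i
      obtain ⟨e, he, he'⟩ := hhit (Sum.inr (Sum.inl i))
      exact ⟨e, he, hGedge e he'⟩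
    have hits3 : Hits G L3 := by
      intro i
      obtain ⟨e, he, he'⟩ := hhit (Sum.inr (Sum.inr (Sum.inl i)))
      exact ⟨e, he, hGedge e he'⟩
    have hits4 : Hits G L4 := by
      intro i
      obtain ⟨e, he, he'⟩ := hhit (Sum.inr (Sum.inr (Sum.inr i)))
      exact ⟨e, he, hGedge e he'⟩
    obtain ⟨ψ, hψ⟩ := hstatic G
      { p2 := hh2 G hits2
        p3 := by
          rw [Fintype.card_fin]
          exact hh3 G hits3 }
      (hh1 G hits1) (hh4 G hits4)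
      (by
        intro x q q' hp
        obtain ⟨hxH, hqH, hq'H, hqq'⟩ := hpr' _ _ _ hp
        have hm : mt pr s(x, q) = some s(x, q') :=
          (mt_eq_some hpr').mpr ⟨x, q, q', hp, Or.inl ⟨rfl, rfl⟩⟩
        rcases hpair _ _ hm with h | h
        · exact Or.inl ((hGadj _ _).mpr ⟨h, by rintro rfl; exact hxH hqH⟩)
        · exact Or.inr ((hGadj _ _).mpr ⟨h, by rintro rfl; exact hxH hq'H⟩))
      (fun e he => hGedge e (hMM' he))
    classical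
    refine ⟨univ.filter (fun e => ∃ a b, T.Adj a b ∧ e = s(ψ a, ψ b)), ⟨ψ, ?_⟩, ?_⟩
    · intro e
      simp only [mem_filter, mem_univ, true_and]
    · intro e he
      simp only [mem_filter, mem_univ, true_and] at he
      obtain ⟨a, b, hab, rfl⟩ := he
      exact ((hGadj _ _).mp (hψ a b hab)).1

end Pool.Agent.TH267.MB
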