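import Pool.Agent.TH722.FI.Defs

/-!
Job FI-GEO of the project MP_572a3e_an: geometry of the block edges of the hybrid tree.
-/

open MeasureTheory Set Filter Pool.Agent.TH722.FI
open scoped Topology ENNReal

namespace Pool.Agent.TH267.FI

variable {V W : Type*}

/-- a walk from a point with `P` to a point without `P` crosses somewhere -/
theorem walk_cross (G : SimpleGraph V) (P : V → Prop) {x y : V} (p : G.Walk x y)
    (hx : P x) (hy : ¬ P y) : ∃ a b, ∃ (q1 : G.Walk x a) (q2 : G.Walk b y), G.Adj a b ∧ P a ∧ ¬ P b ∧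
      q1.length + 1 + q2.length = p.length := by
  induction p with
  | nil => exact absurd hx hy
  | @cons u w z h p ih =>
    by_cases hw : P w
    · obtain ⟨a, b, q1, q2, hab, ha, hb, hl⟩ := ih hw hy
      refine ⟨a, b, SimpleGraph.Walk.cons h q1, q2, hab, ha, hb, ?_⟩
      simp only [SimpleGraph.Walk.length_cons]
      omega
    · refine ⟨u, w, SimpleGraph.Walk.nil, p, h, hx, hw, ?_⟩
      simp only [SimpleGraph.Walk.length_cons, SimpleGraph.Walk.length_nil]
      omega

/-- in a tree, an edge separates its endpoints -/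
theorem tree_sep {U : SimpleGraph V} (hU : U.IsTree) {u v : V} (huv : U.Adj u v) :
    ¬ (U.deleteEdges {s(u, v)}).Reachable u v := by
  have h := SimpleGraph.isAcyclic_iff_forall_adj_isBridge.1 hU.isAcyclic huv
  exact SimpleGraph.isBridge_iff.1 h

theorem side_or {U : SimpleGraph V} (hU : U.IsTree) (u v : V) (z : V) :
    (U.deleteEdges {s(u, v)}).Reachable u z ∨ (U.deleteEdges {s(u, v)}).Reachable v z := by
  by_contra hcon
  obtain ⟨p⟩ := hU.connected.preconnected u z
  obtain ⟨a, b, q1, q2, hab, ha, hb, -⟩ := walk_cross U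
    (fun z => (U.deleteEdges {s(u, v)}).Reachable u z ∨ (U.deleteEdges {s(u, v)}).Reachable v z)
    p (Or.inl (SimpleGraph.Reachable.refl _)) hcon
  have hne : s(a, b) ≠ s(u, v) := by
    intro h
    rcases Sym2.eq_iff.1 h with ⟨-, rfl⟩ | ⟨-, rfl⟩
    · exact hb (Or.inr (SimpleGraph.Reachable.refl _))
    · exact hb (Or.inl (SimpleGraph.Reachable.refl _))
  have hadj : (U.deleteEdges {s(u, v)}).Adj a b := by
    rw [SimpleGraph.deleteEdges_adj]
    exact ⟨hab, by simpa using hne⟩
  rcases ha with ha | ha
  · exact hb (Or.inl (ha.trans hadj.reachable))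
  · exact hb (Or.inr (ha.trans hadj.reachable))

theorem not_both {U : SimpleGraph V} (hU : U.IsTree) {u v : V} (huv : U.Adj u v) {z : V}
    (h1 : (U.deleteEdges {s(u, v)}).Reachable u z)
    (h2 : (U.deleteEdges {s(u, v)}).Reachable v z) : False :=
  tree_sep hU huv (h1.trans h2.symm)

/-- distance between points on different sides of an edge -/
theorem dist_cross {U : SimpleGraph V} (hU : U.IsTree) {u v : V} (huv : U.Adj u v) {z w : V}
    (hz : (U.deleteEdges {s(u, v)}).Reachable u z)
    (hw : (U.deleteEdges {s(u, v)}).Reachable v w) :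
    U.dist z w = U.dist z u + 1 + U.dist v w := by
  apply le_antisymm
  · have h1 := hU.connected.dist_triangle (u := z) (v := u) (w := w)
    have h2 := hU.connected.dist_triangle (u := u) (v := v) (w := w)
    have h3 : U.dist u v = 1 := SimpleGraph.dist_eq_one_iff_adj.2 huv
    omega
  · obtain ⟨p, hp⟩ := hU.connected.exists_walk_length_eq_dist z w
    obtain ⟨a, b, q1, q2, hab, ha, hb, hl⟩ := walk_cross U
      (fun z => (U.deleteEdges {s(u, v)}).Reachable u z) p hz
      (fun h => not_both hU huv h hw)
    have hab' : s(a, b) = s(u, v) := by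
      by_contra hne
      apply hb
      have hadj : (U.deleteEdges {s(u, v)}).Adj a b := by
        rw [SimpleGraph.deleteEdges_adj]
        exact ⟨hab, by simpa using hne⟩
      exact ha.trans hadj.reachable
    rcases Sym2.eq_iff.1 hab' with ⟨rfl, rfl⟩ | ⟨rfl, rfl⟩
    · have h1 := SimpleGraph.dist_le q1
      have h2 := SimpleGraph.dist_le q2
      omega
    · exact absurd (SimpleGraph.Reachable.refl _) hb

theorem dist_side_u {U : SimpleGraph V} (hU : U.IsTree) {u v : V} (huv : U.Adj u v) {z : V}
    (hz : (U.deleteEdges {s(u, v)}).Reachable u z) : U.dist v z = U.dist u z + 1 := by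
  have h := dist_cross hU huv hz (SimpleGraph.Reachable.refl v)
  rw [SimpleGraph.dist_self, SimpleGraph.dist_comm (u := z) (v := v),
    SimpleGraph.dist_comm (u := z) (v := u)] at h
  omega

theorem dist_side_v {U : SimpleGraph V} (hU : U.IsTree) {u v : V} (huv : U.Adj u v) {z : V}
    (hz : (U.deleteEdges {s(u, v)}).Reachable v z) : U.dist u z = U.dist v z + 1 := by
  have h := dist_cross hU huv (SimpleGraph.Reachable.refl u) hz
  rw [SimpleGraph.dist_self] at h
  omega

theorem near_antisymm {U T C : SimpleGraph V} {key : V → ℝ} (hkey : Function.Injective key)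
    {u x y : V} (hb : Blk T C x y) (hx : Near U T C key u x) (hy : Near U T C key u y) : x = y := by
  have h1 := hx y hb
  have h2 := hy x (SimpleGraph.Reachable.symm hb)
  rcases h1 with h1 | ⟨h1, k1⟩
  · rcases h2 with h2 | ⟨h2, k2⟩ <;> omega
  · rcases h2 with h2 | ⟨h2, k2⟩
    · omega
    · exact hkey (le_antisymm k1 k2)

/-- the nearest point from `u` is on the `u`-side -/
theorem near_side (U T C : SimpleGraph V) (hU : U.IsTree)
    (key : V → ℝ) (hkey : Function.Injective key) (x y u v : V) (hxy : x ≠ y) (hb : Blk T C x y)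
    (huv : U.Adj u v) (hu : Near U T C key u x) (hv : Near U T C key v y) :
    (U.deleteEdges {s(u, v)}).Reachable u x := by
  rcases side_or hU u v x with h | h
  · exact h
  · exfalso
    apply hxy
    refine near_antisymm (u := v) hkey hb ?_ hv
    intro w hw
    have hx1 := dist_side_v hU huv h
    rcases side_or hU u v w with hw1 | hw1
    · have h1 := dist_side_u hU huv hw1
      left
      rcases hu w hw with h2 | ⟨h2, -⟩ <;> omega
    · have h1 := dist_side_v hU huv hw1
      rcases hu w hw with h2 | ⟨h2, h3⟩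
      · left; omega
      · right; exact ⟨by omega, h3⟩

theorem near_le {U T C : SimpleGraph V} {key : V → ℝ} {u x w : V} (hu : Near U T C key u x)
    (hw : Blk T C x w) : U.dist u x ≤ U.dist u w := by
  rcases hu w hw with h2 | ⟨h2, -⟩ <;> omega

/-- part (iii) -/
theorem near_bound (U T C : SimpleGraph V) (hU : U.IsTree) (hT : T.IsTree)
    (key : V → ℝ) (x y u v : V) (hb : Blk T C x y)
    (huv : U.Adj u v) (hu : Near U T C key u x)
    (hxs : (U.deleteEdges {s(u, v)}).Reachable u x)
    (hys : (U.deleteEdges {s(u, v)}).Reachable v y)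
    (M : ℕ) (hM : ∀ a b, C.Adj a b → Nice U T M a b) : U.dist u x ≤ M := by
  by_cases hxu : Blk T C x u
  · have := near_le hu hxu
    rw [SimpleGraph.dist_self] at this
    omega
  -- a crossing edge
  obtain ⟨p, hp⟩ := hT.connected.exists_walk_length_eq_dist x u
  obtain ⟨a, b, q1, q2, hab, ha, hb', hl⟩ := walk_cross T (fun z => Blk T C x z) p
    (SimpleGraph.Reachable.refl _) hxu
  have hCab : C.Adj a b := by
    by_contra hn
    apply hb'
    have : (T \ C).Adj a b := ⟨hab, hn⟩
    exact SimpleGraph.Reachable.trans ha this.reachable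
  have hle : T \ C ≤ T.deleteEdges {s(a, b)} := by
    intro z w hzw
    rw [SimpleGraph.deleteEdges_adj]
    refine ⟨hzw.1, ?_⟩
    intro h
    have h' : s(z, w) = s(a, b) := by simpa using h
    rcases Sym2.eq_iff.1 h' with ⟨rfl, rfl⟩ | ⟨rfl, rfl⟩
    · exact hzw.2 hCab
    · exact hzw.2 hCab.symm
  have hblk : ∀ w, Blk T C x w → (T.deleteEdges {s(a, b)}).Reachable a w := by
    intro w hw
    exact (SimpleGraph.Reachable.trans (SimpleGraph.Reachable.symm ha) hw).mono hle
  have hu_b : ¬ (T.deleteEdges {s(a, b)}).Reachable a u := by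
    intro h
    have h1 := dist_side_u hT hab h
    have h2 := SimpleGraph.dist_le q1
    have h3 := SimpleGraph.dist_le q2
    have h4 := hT.connected.dist_triangle (u := x) (v := a) (w := u)
    omega
  have key1 : ∀ z, Blk T C x z → ∃ c d, U.dist z u ≥ U.dist z c + 1 + U.dist d u ∧ U.Adj c d ∧
      U.dist c a ≤ M := by
    intro z hz
    obtain ⟨p, hp⟩ := hU.connected.exists_walk_length_eq_dist z u
    obtain ⟨c, d, r1, r2, hcd, hc, hd, hl⟩ := walk_cross U
      (fun z => (T.deleteEdges {s(a, b)}).Reachable a z) p (hblk z hz) hu_b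
    refine ⟨c, d, ?_, hcd, ?_⟩
    · have h1 := SimpleGraph.dist_le r1
      have h2 := SimpleGraph.dist_le r2
      omega
    · have hn := (hM a b hCab).2 c d hcd (fun h => hd (hc.trans h))
      exact hn.1
  have hua : U.dist u a ≤ M := by
    rcases side_or hU u v a with hau | hav
    · obtain ⟨c, d, h1, hcd, h2⟩ := key1 y hb
      -- c is on the v side
      have hcv : (U.deleteEdges {s(u, v)}).Reachable v c := by
        rcases side_or hU u v c with h | h
        · exfalso
          have h3 := dist_cross hU huv h hys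
          have h4 := dist_side_v hU huv hys
          rw [SimpleGraph.dist_comm (u := c) (v := y)] at h3
          rw [SimpleGraph.dist_comm (u := u) (v := y)] at h4
          omega
        · exact h
      have h5 := dist_cross hU huv hau hcv
      rw [SimpleGraph.dist_comm (u := a) (v := c), SimpleGraph.dist_comm (u := a) (v := u)] at h5
      omega
    · obtain ⟨c, d, h1, hcd, h2⟩ := key1 x (SimpleGraph.Reachable.refl _)
      have hcu : (U.deleteEdges {s(u, v)}).Reachable u c := by
        rcases side_or hU u v c with h | h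
        · exact h
        · exfalso
          have h3 := dist_cross hU huv hxs h
          omega
      have h5 := dist_cross hU huv hcu hav
      have h6 := dist_side_v hU huv hav
      omega
  exact le_trans (near_le hu ha) hua

theorem block_geo (U T C : SimpleGraph V) (hU : U.IsTree) (hT : T.IsTree) (_hC : C ≤ T)
    (key : V → ℝ) (hkey : Function.Injective key) (x y u v : V) (hxy : x ≠ y) (hb : Blk T C x y)
    (huv : U.Adj u v) (hu : Near U T C key u x) (hv : Near U T C key v y) :
    U.dist v x = U.dist u x + 1 ∧ U.dist u y = U.dist v y + 1 ∧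
    U.dist x y = U.dist u x + 1 + U.dist v y ∧
    (∃ a b, T.Adj a b ∧ ¬ C.Adj a b ∧ Blk T C x a ∧
      ¬ (U.deleteEdges {s(u, v)}).Reachable a b ∧ U.dist x y ≤ U.dist a b) ∧
    (∀ M, (∀ a b, C.Adj a b → Nice U T M a b) → U.dist u x ≤ M ∧ U.dist v y ≤ M) := by
  have hsw : s(v, u) = s(u, v) := Sym2.eq_swap
  have hxs := near_side U T C hU key hkey x y u v hxy hb huv hu hv
  have hys := near_side U T C hU key hkey y x v u hxy.symm (SimpleGraph.Reachable.symm hb)
    huv.symm hv hu
  rw [hsw] at hys
  have hxyd : U.dist x y = U.dist u x + 1 + U.dist v y := by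
    have h := dist_cross hU huv hxs hys
    rw [SimpleGraph.dist_comm (u := x) (v := u)] at h
    exact h
  refine ⟨dist_side_u hU huv hxs, dist_side_v hU huv hys, hxyd, ?_, ?_⟩
  · obtain ⟨p⟩ := hb
    obtain ⟨a, b, q1, q2, hab, ha, hb', -⟩ := walk_cross (T \ C)
      (fun z => (U.deleteEdges {s(u, v)}).Reachable u z) p hxs
      (fun h => not_both hU huv h hys)
    have hbv : (U.deleteEdges {s(u, v)}).Reachable v b := by
      rcases side_or hU u v b with h | h
      · exact absurd h hb'
      · exact h
    refine ⟨a, b, hab.1, hab.2, ⟨q1⟩, fun h => hb' (ha.trans h), ?_⟩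
    have h1 := dist_cross hU huv ha hbv
    have h2 := near_le hu (w := a) ⟨q1⟩
    have h3 := near_le hv (w := b) ⟨q2.reverse⟩
    rw [SimpleGraph.dist_comm (u := a) (v := u)] at h1
    omega
  · intro M hM
    refine ⟨near_bound U T C hU hT key x y u v hb huv hu hxs hys M hM, ?_⟩
    refine near_bound U T C hU hT key y x v u (SimpleGraph.Reachable.symm hb) huv.symm hv ?_ ?_ M hM
    · rw [hsw]; exact hys
    · rw [hsw]; exact hxs

end Pool.Agent.TH267.FI
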