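import Pool.Agent.TH317.CC.Alg

/-!
# Insertion of a closed piece into a word: framework (project MP_86dbc7_gt, helper267)

General bookkeeping for the difference `L X g (u ++ f ++ V) - L X g (u ++ V)`.
-/

set_option autoImplicit false
set_option linter.unusedVariables false
set_option linter.unusedSectionVars false

namespace Pool.Agent.TH317.CC.Ins

open Finset Pool.Agent.TH317.CC

/-! ### sums -/

theorem sum_tri {R : Type*} [AddCommMonoid R] (f : ℕ → ℕ → R) (p m : ℕ) :
    ∑ k ∈ range (p + m), ∑ j ∈ range k, f j k =
      ∑ k ∈ range p, ∑ j ∈ range k, f j k +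
        ∑ c ∈ range m, (∑ j ∈ range p, f j (p + c) + ∑ d ∈ range c, f (p + d) (p + c)) := by
  rw [Finset.sum_range_add]
  congr 1
  apply Finset.sum_congr rfl
  intro c _
  rw [Finset.sum_range_add]

theorem sum_split {R : Type*} [CommRing R] (p q M : ℕ) (f f' : ℕ → ℕ → R)
    (h1 : ∀ k < p, ∀ j < k, f j k = f' j k)
    (h3 : ∀ t < M, ∀ j < p, f j (p + q + 1 + t) = f' j (p + 1 + t))
    (h5 : ∀ t < M, ∀ d < t, f (p + q + 1 + d) (p + q + 1 + t) = f' (p + 1 + d) (p + 1 + t)) :
    ∑ k ∈ range (p + q + 1 + M), ∑ j ∈ range k, f j k =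
      ∑ k ∈ range (p + 1 + M), ∑ j ∈ range k, f' j k
      + ∑ j ∈ range p, (∑ c ∈ range (q + 1), f j (p + c) - f' j p)
      + ∑ c ∈ range (q + 1), ∑ d ∈ range c, f (p + d) (p + c)
      + ∑ t ∈ range M, (∑ d ∈ range (q + 1), f (p + d) (p + q + 1 + t) - f' p (p + 1 + t)) := by
  have e1 : p + q + 1 + M = p + (q + 1 + M) := by ring
  have e2 : p + 1 + M = p + (1 + M) := by ring
  rw [e1, e2, sum_tri f p (q + 1 + M), sum_tri f' p (1 + M)]
  rw [Finset.sum_range_add (fun c => ∑ j ∈ range p, f j (p + c) + ∑ d ∈ range c, f (p + d) (p + c))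
    (q + 1) M]
  rw [Finset.sum_range_add
    (fun c => ∑ j ∈ range p, f' j (p + c) + ∑ d ∈ range c, f' (p + d) (p + c)) 1 M]
  have hA : ∑ k ∈ range p, ∑ j ∈ range k, f j k = ∑ k ∈ range p, ∑ j ∈ range k, f' j k := by
    apply Finset.sum_congr rfl
    intro k hk
    apply Finset.sum_congr rfl
    intro j hj
    exact h1 k (mem_range.1 hk) j (mem_range.1 hj)
  have hB : ∑ c ∈ range (q + 1), (∑ j ∈ range p, f j (p + c) + ∑ d ∈ range c, f (p + d) (p + c)) =
      ∑ j ∈ range p, ∑ c ∈ range (q + 1), f j (p + c) +
      ∑ c ∈ range (q + 1), ∑ d ∈ range c, f (p + d) (p + c) := by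
    rw [Finset.sum_add_distrib, Finset.sum_comm]
  have hC : ∑ t ∈ range M, (∑ j ∈ range p, f j (p + (q + 1 + t)) +
      ∑ d ∈ range (q + 1 + t), f (p + d) (p + (q + 1 + t))) =
      ∑ t ∈ range M, (∑ j ∈ range p, f' j (p + 1 + t) +
        (∑ d ∈ range (q + 1), f (p + d) (p + q + 1 + t) +
          ∑ d ∈ range t, f' (p + 1 + d) (p + 1 + t))) := by
    apply Finset.sum_congr rfl
    intro t ht
    rw [Finset.sum_range_add]
    have e3 : p + (q + 1 + t) = p + q + 1 + t := by ring
    rw [e3]
    congr 1
    · apply Finset.sum_congr rfl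
      intro j hj
      exact h3 t (mem_range.1 ht) j (mem_range.1 hj)
    · congr 1
      apply Finset.sum_congr rfl
      intro d hd
      have e4 : p + (q + 1 + d) = p + q + 1 + d := by ring
      rw [e4]
      exact h5 t (mem_range.1 ht) d (mem_range.1 hd)
  have hC' : ∑ t ∈ range M, (∑ j ∈ range p, f' j (p + (1 + t)) +
      ∑ d ∈ range (1 + t), f' (p + d) (p + (1 + t))) =
      ∑ t ∈ range M, (∑ j ∈ range p, f' j (p + 1 + t) +
        (f' p (p + 1 + t) + ∑ d ∈ range t, f' (p + 1 + d) (p + 1 + t))) := by
    apply Finset.sum_congr rfl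
    intro t _
    rw [Finset.sum_range_add, Finset.sum_range_one]
    have e3 : p + (1 + t) = p + 1 + t := by ring
    rw [e3]
    congr 2
    apply Finset.sum_congr rfl
    intro d _
    have e4 : p + (1 + d) = p + 1 + d := by ring
    rw [e4]
  rw [hA, hB, hC, hC', Finset.sum_range_one, Finset.sum_range_zero]
  simp only [Finset.sum_add_distrib, Finset.sum_sub_distrib, add_zero]
  ring

/-! ### walks -/

section walks

variable {D V Λ : Type*} [LinearOrder Λ] {G : Rib D V Λ}

theorem walk_append {v v' : V} {l1 l2 : List D} :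
    Walk G v v' (l1 ++ l2) ↔ ∃ m, Walk G v m l1 ∧ Walk G m v' l2 := by
  induction l1 generalizing v with
  | nil => simp [Walk]
  | cons d l ih =>
    simp only [List.cons_append, Walk, ih]
    constructor
    · rintro ⟨h1, m, h2, h3⟩
      exact ⟨m, ⟨h1, h2⟩, h3⟩
    · rintro ⟨m, ⟨h1, h2⟩, h3⟩
      exact ⟨h1, m, h2, h3⟩

variable [Inhabited D]

theorem walk_first {v v' : V} {w : List D} (h : Walk G v v' w) (hw : 0 < w.length) :
    G.tl (w.getD 0 default) = v := by
  cases w with
  | nil => simp at hw
  | cons d l => exact h.1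

theorem walk_step {v v' : V} {w : List D} (h : Walk G v v' w) {k : ℕ} (hk : k + 1 < w.length) :
    G.hd (w.getD k default) = G.tl (w.getD (k + 1) default) := by
  induction w generalizing v k with
  | nil => simp at hk
  | cons d l ih =>
    cases k with
    | zero =>
      have hl : 0 < l.length := by simpa using hk
      have := walk_first h.2 hl
      simpa using this.symm
    | succ k =>
      have hl : k + 1 < l.length := by simpa using hk
      have := ih h.2 hl
      simpa using this

theorem walk_last {v v' : V} {w : List D} (h : Walk G v v' w) (hw : 0 < w.length) :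
    G.hd (w.getD (w.length - 1) default) = v' := by
  induction w generalizing v with
  | nil => simp at hw
  | cons d l ih =>
    by_cases hl : 0 < l.length
    · have := ih h.2 hl
      have e : (d :: l).length - 1 = (l.length - 1) + 1 := by
        rw [List.length_cons]; omega
      rw [e]
      simpa using this
    · have hl' : l = [] := List.length_eq_zero_iff.1 (by omega)
      subst hl'
      exact h.2

theorem in_tl {w : List D} (h : CW G w) {k : ℕ} (hk : k < w.length) :
    G.hd (w.getD (if k = 0 then w.length - 1 else k - 1) default) =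
      G.tl (w.getD k default) := by
  obtain ⟨v, h⟩ := h
  by_cases h0 : k = 0
  · subst h0
    rw [if_pos rfl, walk_last h hk, walk_first h hk]
  · rw [if_neg h0]
    have := walk_step h (k := k - 1) (by omega)
    rw [Nat.sub_add_cancel (by omega)] at this
    exact this

end walks

/-! ### linking coefficients -/

section lks

variable {D V Λ : Type*} [LinearOrder Λ] (G : Rib D V Λ)

theorem block' {a b c : D} (h1 : G.tl a = G.tl b) (h2 : G.tl c ≠ G.tl a) :
    G.pos a < G.pos c ↔ G.pos b < G.pos c := by
  have hac : G.pos c ≠ G.pos a := fun h => h2 (by rw [G.pos_inj h])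
  have hbc : G.pos c ≠ G.pos b := fun h => h2 (by rw [h1, G.pos_inj h])
  constructor
  · intro h
    have : ¬ G.pos c < G.pos a := not_lt.2 h.le
    rw [G.block a b c h1 h2] at this
    exact lt_of_le_of_ne (not_lt.1 this) (Ne.symm hbc)
  · intro h
    have : ¬ G.pos c < G.pos b := not_lt.2 h.le
    rw [← G.block a b c h1 h2] at this
    exact lt_of_le_of_ne (not_lt.1 this) (Ne.symm hac)

theorem lk_zero {b1 b2 c1 c2 : D} (hb : G.tl b1 = G.tl b2) (hc : G.tl c1 = G.tl c2)
    (h : G.tl b1 ≠ G.tl c1) :
    lk (G.pos b1, G.pos b2) (G.pos c1, G.pos c2) = 0 ∧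
    lkb (G.pos b1, G.pos b2) (G.pos c1, G.pos c2) = 0 := by
  have hne : ∀ x y : D, G.tl x ≠ G.tl y → G.pos x ≠ G.pos y := fun x y h h' => h (by rw [G.pos_inj h'])
  have e1 : (G.pos b2 ≤ G.pos c2) ↔ (G.pos b2 ≤ G.pos c1) := by
    have hbc2 : G.tl b2 ≠ G.tl c1 := by rw [← hb]; exact h
    have hbc2' : G.tl b2 ≠ G.tl c2 := by rw [← hc]; exact hbc2
    have := G.block c1 c2 b2 hc hbc2
    rw [le_iff_lt_or_eq, le_iff_lt_or_eq, this]
    have n1 := hne b2 c1 hbc2
    have n2 := hne b2 c2 hbc2'
    tauto
  have e2 : (G.pos b1 < G.pos c2) ↔ (G.pos b1 < G.pos c1) := (G.block c1 c2 b1 hc h).symm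
  have e3 : (G.pos b1 ≤ G.pos c1) ↔ (G.pos b1 < G.pos c1) := by
    rw [le_iff_lt_or_eq]
    have := hne b1 c1 h
    tauto
  constructor
  · unfold lk
    simp only [e1, e2]
    ring
  · unfold lkb
    simp only [e1, e2, e3]
    ring

variable [Inhabited D]

theorem cf_zero {w : List D} (hw : CW G w) {j k : ℕ} (hj : j < w.length) (hk : k < w.length)
    (h : G.tl (w.getD j default) ≠ G.tl (w.getD k default)) :
    cf G.ipos G.pos w j k = 0 := by
  have h1 := in_tl hw hj
  have h2 := in_tl hw hk
  have h3 := lk_zero G (b1 := G.inv (w.getD (if j = 0 then w.length - 1 else j - 1) default))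
    (b2 := w.getD j default)
    (c1 := G.inv (w.getD (if k = 0 then w.length - 1 else k - 1) default))
    (c2 := w.getD k default) h1 h2 (by
      intro h4
      apply h
      rw [← h1, ← h2]
      exact h4)
  unfold cf pass Rib.ipos
  split_ifs <;> simp_all

end lks

/-! ### positions in `u ++ f ++ (v ++ [e])` -/

section positions

variable {D : Type*} [Inhabited D] (u f v : List D) (e : D)

theorem get_u {k : ℕ} (hk : k < u.length) :
    (u ++ f ++ (v ++ [e])).getD k default = u.getD k default := by
  rw [List.append_assoc, List.getD_append _ _ _ _ hk]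

theorem get_f {c : ℕ} (hc : c < f.length) :
    (u ++ f ++ (v ++ [e])).getD (u.length + c) default = f.getD c default := by
  rw [List.append_assoc, List.getD_append_right _ _ _ _ (by omega), List.getD_append _ _ _ _ (by omega)]
  congr 1
  omega

theorem get_v {k : ℕ} :
    (u ++ f ++ (v ++ [e])).getD (u.length + f.length + k) default =
      (v ++ [e]).getD k default := by
  rw [List.getD_append_right _ _ _ _ (by rw [List.length_append]; omega)]
  congr 1
  rw [List.length_append]
  omega

theorem get_last : (u ++ f ++ (v ++ [e])).getD ((u ++ f ++ (v ++ [e])).length - 1) default = e := by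
  have : (u ++ f ++ (v ++ [e])).length - 1 = u.length + f.length + v.length := by
    simp only [List.length_append, List.length_cons, List.length_nil]
    omega
  rw [this, get_v, List.getD_append_right _ _ _ _ le_rfl, Nat.sub_self]
  rfl

theorem leaf_uu {j k : ℕ} (hj : j ≤ k) (hk : k ≤ u.length) :
    leaf (u ++ f ++ (v ++ [e])) j k = (u.take k).drop j := by
  unfold leaf
  rw [List.append_assoc, List.take_append_of_le_length hk]

theorem rest_uu {j k : ℕ} (hj : j ≤ k) (hk : k ≤ u.length) :
    rest (u ++ f ++ (v ++ [e])) j k = (u.take j ++ u.drop k) ++ f ++ (v ++ [e]) := by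
  unfold rest
  rw [List.append_assoc, List.take_append_of_le_length (by omega),
    List.drop_append_of_le_length hk]
  simp only [List.append_assoc]

theorem leaf_uf {j c : ℕ} (hj : j ≤ u.length) (hc : c ≤ f.length) :
    leaf (u ++ f ++ (v ++ [e])) j (u.length + c) = u.drop j ++ f.take c := by
  unfold leaf
  rw [List.append_assoc, List.take_length_add_append, List.take_append_of_le_length hc,
    List.drop_append_of_le_length hj]

theorem rest_uf {j c : ℕ} (hj : j ≤ u.length) (hc : c ≤ f.length) :
    rest (u ++ f ++ (v ++ [e])) j (u.length + c) = u.take j ++ f.drop c ++ (v ++ [e]) := by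
  unfold rest
  rw [List.append_assoc, List.take_append_of_le_length hj, List.drop_length_add_append,
    List.drop_append_of_le_length hc, List.append_assoc]

theorem take_v {k : ℕ} (hk : k ≤ v.length) :
    (u ++ f ++ (v ++ [e])).take (u.length + f.length + k) = u ++ f ++ v.take k := by
  have := List.take_length_add_append (l₁ := u ++ f) (l₂ := v ++ [e]) k
  rw [List.length_append] at this
  rw [this, List.take_append_of_le_length hk]

theorem drop_v {k : ℕ} (hk : k ≤ v.length) :
    (u ++ f ++ (v ++ [e])).drop (u.length + f.length + k) = v.drop k ++ [e] := by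
  have := List.drop_length_add_append (l₁ := u ++ f) (l₂ := v ++ [e]) k
  rw [List.length_append] at this
  rw [this, List.drop_append_of_le_length hk]

theorem leaf_uv {j k : ℕ} (hj : j ≤ u.length) (hk : k ≤ v.length) :
    leaf (u ++ f ++ (v ++ [e])) j (u.length + f.length + k) = u.drop j ++ f ++ v.take k := by
  unfold leaf
  rw [take_v u f v e hk, List.append_assoc, List.drop_append_of_le_length hj, List.append_assoc]

theorem rest_uv {j k : ℕ} (hj : j ≤ u.length) (hk : k ≤ v.length) :
    rest (u ++ f ++ (v ++ [e])) j (u.length + f.length + k) = u.take j ++ (v.drop k ++ [e]) := by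
  unfold rest
  rw [drop_v u f v e hk, List.append_assoc, List.take_append_of_le_length hj]

theorem leaf_fv {c k : ℕ} (hc : c ≤ f.length) (hk : k ≤ v.length) :
    leaf (u ++ f ++ (v ++ [e])) (u.length + c) (u.length + f.length + k) =
      f.drop c ++ v.take k := by
  unfold leaf
  rw [take_v u f v e hk, List.append_assoc, List.drop_length_add_append,
    List.drop_append_of_le_length hc]

theorem rest_fv {c k : ℕ} (hc : c ≤ f.length) (hk : k ≤ v.length) :
    rest (u ++ f ++ (v ++ [e])) (u.length + c) (u.length + f.length + k) =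
      u ++ f.take c ++ (v.drop k ++ [e]) := by
  unfold rest
  rw [drop_v u f v e hk, List.append_assoc, List.take_length_add_append,
    List.take_append_of_le_length hc]

theorem leaf_ff {c d : ℕ} (hd : d ≤ c) (hc : c ≤ f.length) :
    leaf (u ++ f ++ (v ++ [e])) (u.length + d) (u.length + c) = (f.take c).drop d := by
  unfold leaf
  rw [List.append_assoc, List.take_length_add_append, List.drop_length_add_append,
    List.take_append_of_le_length hc]

theorem rest_ff {c d : ℕ} (hd : d ≤ c) (hc : c ≤ f.length) :
    rest (u ++ f ++ (v ++ [e])) (u.length + d) (u.length + c) =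
      u ++ (f.take d ++ f.drop c) ++ (v ++ [e]) := by
  unfold rest
  rw [List.append_assoc, List.take_length_add_append, List.drop_length_add_append,
    List.take_append_of_le_length (by omega), List.drop_append_of_le_length hc]
  simp only [List.append_assoc]

theorem leaf_vv {d k : ℕ} (hd : d ≤ k) (hk : k ≤ v.length) :
    leaf (u ++ f ++ (v ++ [e])) (u.length + f.length + d) (u.length + f.length + k) =
      (v.take k).drop d := by
  unfold leaf
  rw [take_v u f v e hk]
  have := List.drop_length_add_append (l₁ := u ++ f) (l₂ := v.take k) d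
  rw [List.length_append] at this
  rw [this]

theorem rest_vv {d k : ℕ} (hd : d ≤ k) (hk : k ≤ v.length) :
    rest (u ++ f ++ (v ++ [e])) (u.length + f.length + d) (u.length + f.length + k) =
      u ++ f ++ (v.take d ++ v.drop k ++ [e]) := by
  unfold rest
  rw [drop_v u f v e hk, take_v u f v e (by omega)]
  simp only [List.append_assoc]

theorem length_w : (u ++ f ++ (v ++ [e])).length = u.length + f.length + 1 + v.length := by
  simp only [List.length_append, List.length_cons, List.length_nil]
  omega

end positions

/-! ### passes -/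

section passes

variable {D Λ : Type*} [Inhabited D] (i o : D → Λ) (u f v : List D) (e : D)

/-- letter before position `k ≤ u.length` -/
def pu {D : Type*} [Inhabited D] (u : List D) (e : D) (k : ℕ) : D :=
  if k = 0 then e else u.getD (k - 1) default

theorem pass_u {k : ℕ} (hk : k < u.length) :
    pass i o (u ++ f ++ (v ++ [e])) k = (i (pu u e k), o (u.getD k default)) := by
  unfold pass pu
  by_cases h : k = 0
  · rw [if_pos h, if_pos h, get_last, get_u u f v e hk]
  · rw [if_neg h, if_neg h, get_u u f v e hk, get_u u f v e (by omega)]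

theorem in_p : (u ++ f ++ (v ++ [e])).getD
    (if u.length = 0 then (u ++ f ++ (v ++ [e])).length - 1 else u.length - 1) default =
      pu u e u.length := by
  unfold pu
  by_cases h : u.length = 0
  · rw [if_pos h, if_pos h, get_last]
  · rw [if_neg h, if_neg h, get_u u f v e (by omega)]

theorem pass_p0 (hf : 0 < f.length) :
    pass i o (u ++ f ++ (v ++ [e])) u.length = (i (pu u e u.length), o (f.getD 0 default)) := by
  unfold pass
  rw [in_p]
  have := get_f u f v e hf
  rw [Nat.add_zero] at this
  rw [this]

theorem pass_f {c : ℕ} (hc : c + 1 < f.length) :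
    pass i o (u ++ f ++ (v ++ [e])) (u.length + (c + 1)) =
      (i (f.getD c default), o (f.getD (c + 1) default)) := by
  unfold pass
  rw [if_neg (by omega), get_f u f v e hc]
  have : u.length + (c + 1) - 1 = u.length + c := by omega
  rw [this, get_f u f v e (by omega)]

theorem pass_q {c : ℕ} (hf : f.length = c + 1) :
    pass i o (u ++ f ++ (v ++ [e])) (u.length + (c + 1)) =
      (i (f.getD c default), o ((v ++ [e]).getD 0 default)) := by
  unfold pass
  rw [if_neg (by omega)]
  have h1 : u.length + (c + 1) - 1 = u.length + c := by omega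
  have h2 := get_v u f v e (k := 0)
  rw [hf, Nat.add_zero] at h2
  rw [h1, get_f u f v e (by omega), h2]

theorem pass_v (t : ℕ) :
    pass i o (u ++ f ++ (v ++ [e])) (u.length + f.length + (t + 1)) =
      (i ((v ++ [e]).getD t default), o ((v ++ [e]).getD (t + 1) default)) := by
  unfold pass
  rw [if_neg (by omega), get_v]
  have h1 : u.length + f.length + (t + 1) - 1 = u.length + f.length + t := by omega
  rw [h1, get_v]

theorem pass_p :
    pass i o (u ++ [] ++ (v ++ [e])) u.length =
      (i (pu u e u.length), o ((v ++ [e]).getD 0 default)) := by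
  unfold pass
  rw [in_p]
  have := get_v u [] v e (k := 0)
  rw [List.length_nil, Nat.add_zero] at this
  rw [this]

end passes

/-! ### the main splitting -/

section main

variable {D V Λ R : Type*} [LinearOrder Λ] [CommRing R] [Inhabited D]

/-- a term of the cut operator -/
def T (G : Rib D V Λ) (X g : List D → R) (w : List D) (j k : ℕ) : R :=
  (cf G.ipos G.pos w j k : R) * X (leaf w j k) * g (rest w j k)

theorem T_zero (G : Rib D V Λ) (X g : List D → R) {w : List D} (hw : CW G w) {j k : ℕ}
    (hj : j < w.length) (hk : k < w.length)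
    (h : G.tl (w.getD j default) ≠ G.tl (w.getD k default)) : T G X g w j k = 0 := by
  unfold T
  rw [cf_zero G hw hj hk h]
  simp

theorem mono_le {G : Rib D V Λ} {Fc : Set (List D)} {Rl : ℕ → List D → Prop}
    (hL : Lev G Fc Rl) {m n : ℕ} (h : m ≤ n) {w : List D} (hw : Rl n w) : Rl m w := by
  induction n with
  | zero =>
    have : m = 0 := by omega
    rw [this]; exact hw
  | succ n ih =>
    by_cases hm : m = n + 1
    · rw [hm]; exact hw
    · exact ih (by omega) (hL.mono _ _ hw)

theorem X_del {G : Rib D V Λ} {Fc : Set (List D)} {Rl : ℕ → List D → Prop}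
    (hL : Lev G Fc Rl) {X : List D → R} (hX : Cls G Fc Rl X) {w w' : List D}
    (h : Del G Fc w w') {n : ℕ} (hw : Rl (n + 1) w) : X w = X w' := by
  have h1 : Rl 1 w := mono_le hL (by omega) hw
  exact hX.del w w' h (hL.mono _ _ h1) (hL.del 0 w w' h1 h)

theorem main_split (G : Rib D V Λ) (Fc : Set (List D)) (Rl : ℕ → List D → Prop)
    (hL : Lev G Fc Rl) (X : List D → R) (hX : Cls G Fc Rl X) (g : List D → R) (N0 : ℕ)
    (u f v : List D) (e : D) (hdel : ∀ u1 v1, Del G Fc (u1 ++ f ++ v1) (u1 ++ v1))
    (hg : ∀ u1 v1, Rl N0 (u1 ++ f ++ (v1 ++ [e])) →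
      g (u1 ++ f ++ (v1 ++ [e])) = g (u1 ++ (v1 ++ [e])))
    (hR : Rl (N0 + 4) (u ++ f ++ (v ++ [e]))) :
    L G.ipos G.pos X g (u ++ f ++ (v ++ [e])) =
      L G.ipos G.pos X g (u ++ [] ++ (v ++ [e]))
      + ∑ j ∈ range u.length, (∑ c ∈ range (f.length + 1),
          T G X g (u ++ f ++ (v ++ [e])) j (u.length + c) -
            T G X g (u ++ [] ++ (v ++ [e])) j u.length)
      + ∑ c ∈ range (f.length + 1), ∑ d ∈ range c,
          T G X g (u ++ f ++ (v ++ [e])) (u.length + d) (u.length + c)
      + ∑ t ∈ range v.length, (∑ d ∈ range (f.length + 1),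
          T G X g (u ++ f ++ (v ++ [e])) (u.length + d) (u.length + f.length + 1 + t) -
            T G X g (u ++ [] ++ (v ++ [e])) u.length (u.length + 1 + t)) := by
  have hcw : CW G (u ++ f ++ (v ++ [e])) := hL.cw _ _ hR
  have hlen := length_w u f v e
  have hlen' := length_w u [] v e
  rw [List.length_nil, Nat.add_zero] at hlen'
  have key := sum_split (R := R) u.length f.length v.length
    (T G X g (u ++ f ++ (v ++ [e]))) (T G X g (u ++ [] ++ (v ++ [e]))) ?_ ?_ ?_
  · have e1 : L G.ipos G.pos X g (u ++ f ++ (v ++ [e])) =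
        ∑ k ∈ range (u.length + f.length + 1 + v.length), ∑ j ∈ range k,
          T G X g (u ++ f ++ (v ++ [e])) j k := by
      unfold L
      rw [hlen]
      rfl
    have e2 : L G.ipos G.pos X g (u ++ [] ++ (v ++ [e])) =
        ∑ k ∈ range (u.length + 1 + v.length), ∑ j ∈ range k,
          T G X g (u ++ [] ++ (v ++ [e])) j k := by
      unfold L
      rw [hlen']
      rfl
    rw [e1, e2]
    exact key
  · -- both in `u`
    intro k hk j hj
    have hcf : cf G.ipos G.pos (u ++ f ++ (v ++ [e])) j k =
        cf G.ipos G.pos (u ++ [] ++ (v ++ [e])) j k := by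
      unfold cf
      rw [pass_u _ _ u f v e hk, pass_u _ _ u f v e (by omega : j < u.length),
        pass_u _ _ u [] v e hk, pass_u _ _ u [] v e (by omega : j < u.length)]
    by_cases ht : G.tl ((u ++ f ++ (v ++ [e])).getD j default) =
        G.tl ((u ++ f ++ (v ++ [e])).getD k default)
    · unfold T
      rw [← hcf, leaf_uu u f v e hj.le hk.le, leaf_uu u [] v e hj.le hk.le]
      have h1 := hL.cutr (N0 + 3) _ j k hR hj (by omega) ht
      rw [rest_uu u f v e hj.le hk.le] at h1
      rw [rest_uu u f v e hj.le hk.le, rest_uu u [] v e hj.le hk.le,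
        hg _ _ (mono_le hL (by omega) h1), List.append_nil]
    · rw [T_zero G X g hcw (by omega) (by omega) ht]
      unfold T
      rw [← hcf, cf_zero G hcw (by omega) (by omega) ht]
      simp
  · -- `j` in `u`, `k` in `v`
    intro t ht0 j hj
    have a1 : u.length + f.length + 1 + t = u.length + f.length + (t + 1) := by ring
    have a2 : u.length + 1 + t = u.length + ([] : List D).length + (t + 1) := by
      rw [List.length_nil]; ring
    rw [a1, a2]
    have hcf : cf G.ipos G.pos (u ++ f ++ (v ++ [e])) j (u.length + f.length + (t + 1)) =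
        cf G.ipos G.pos (u ++ [] ++ (v ++ [e])) j
          (u.length + ([] : List D).length + (t + 1)) := by
      unfold cf
      rw [pass_v, pass_u _ _ u f v e hj, pass_v, pass_u _ _ u [] v e hj]
    by_cases ht : G.tl ((u ++ f ++ (v ++ [e])).getD j default) =
        G.tl ((u ++ f ++ (v ++ [e])).getD (u.length + f.length + (t + 1)) default)
    · unfold T
      rw [← hcf, rest_uv u f v e hj.le (by omega), rest_uv u [] v e hj.le (by omega)]
      have h1 := hL.cutl (N0 + 3) _ j _ hR (by omega) (by omega) ht
      rw [leaf_uv u f v e hj.le (by omega)] at h1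
      rw [leaf_uv u f v e hj.le (by omega), leaf_uv u [] v e hj.le (by omega),
        X_del hL hX (hdel _ _) h1, List.append_nil]
    · rw [T_zero G X g hcw (by omega) (by omega) ht]
      unfold T
      rw [← hcf, cf_zero G hcw (by omega) (by omega) ht]
      simp
  · -- both in `v`
    intro t ht0 d hd
    have a1 : ∀ t, u.length + f.length + 1 + t = u.length + f.length + (t + 1) := by
      intro t; ring
    have a2 : ∀ t, u.length + 1 + t = u.length + ([] : List D).length + (t + 1) := by
      intro t
      rw [List.length_nil]; ring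
    rw [a1, a1, a2, a2]
    have hcf : cf G.ipos G.pos (u ++ f ++ (v ++ [e])) (u.length + f.length + (d + 1))
          (u.length + f.length + (t + 1)) =
        cf G.ipos G.pos (u ++ [] ++ (v ++ [e])) (u.length + ([] : List D).length + (d + 1))
          (u.length + ([] : List D).length + (t + 1)) := by
      unfold cf
      rw [pass_v, pass_v, pass_v, pass_v, if_neg (by omega), if_neg (by omega)]
    by_cases ht : G.tl ((u ++ f ++ (v ++ [e])).getD (u.length + f.length + (d + 1)) default) =
        G.tl ((u ++ f ++ (v ++ [e])).getD (u.length + f.length + (t + 1)) default)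
    · unfold T
      rw [← hcf, leaf_vv u f v e (by omega) (by omega), leaf_vv u [] v e (by omega) (by omega)]
      have h1 := hL.cutr (N0 + 3) _ _ _ hR (by omega) (by omega) ht
      rw [rest_vv u f v e (by omega) (by omega)] at h1
      rw [rest_vv u f v e (by omega) (by omega), rest_vv u [] v e (by omega) (by omega),
        hg _ _ (mono_le hL (by omega) h1), List.append_nil]
    · rw [T_zero G X g hcw (by omega) (by omega) ht]
      unfold T
      rw [← hcf, cf_zero G hcw (by omega) (by omega) ht]
      simp

end main

end Pool.Agent.TH317.CC.Ins
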