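import Pool.Agent.TH267.CC_Ins

/-!
# CC-A5s: invariance of `K` under insertion of a spur (job 2374, project MP_86dbc7_gt, helper267)
-/

set_option autoImplicit false
set_option linter.unusedVariables false

namespace Pool.Agent.TH317.CC

open Finset

namespace Ins

section coef

variable {Λ : Type*} [LinearOrder Λ]

/-- equality indicator -/
noncomputable def dl {A : Type*} (x y : A) : ℤ := open Classical in if x = y then 1 else 0

theorem dl_true {A : Type*} {x y : A} (h : x = y) : dl x y = 1 := by
  unfold dl; rw [if_pos h]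

theorem dl_false {A : Type*} {x y : A} (h : x ≠ y) : dl x y = 0 := by
  unfold dl; rw [if_neg h]

theorem dl_comm {A : Type*} (x y : A) : dl x y = dl y x := by
  unfold dl
  by_cases h : x = y
  · rw [if_pos h, if_pos h.symm]
  · rw [if_neg h, if_neg (fun h' => h h'.symm)]

theorem le_sub_lt (x y : Λ) :
    ((if x ≤ y then 1 else 0 : ℤ)) - (if x < y then 1 else 0) = dl x y := by
  unfold dl
  rcases lt_trichotomy x y with h | h | h
  · rw [if_pos h.le, if_pos h, if_neg h.ne]; rfl
  · rw [if_pos h.le, if_neg (not_lt.2 h.ge), if_pos h]; rfl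
  · rw [if_neg (not_le.2 h), if_neg (not_lt.2 h.le), if_neg h.ne']; rfl

theorem lk_add (a : Λ × Λ) (x t y : Λ) : lk a (x, t) + lk a (t, y) = lk a (x, y) := by
  unfold lk; ring

theorem lkb_eq (a b : Λ × Λ) : lkb a b = lk a b + dl a.1 b.1 := by
  rw [← le_sub_lt]
  unfold lk lkb
  ring

theorem lk_const (a : Λ × Λ) (t : Λ) : lk a (t, t) = 0 := by
  unfold lk; ring

theorem lk_diff (x t y : Λ) (b : Λ × Λ) :
    lk (x, t) b + lk (t, y) b - lk (x, y) b = dl t b.2 - dl t b.1 := by
  rw [← le_sub_lt, ← le_sub_lt]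
  unfold lk; ring

theorem lk_diag (t : Λ) (b : Λ × Λ) : lk (t, t) b = dl t b.2 - dl t b.1 := by
  rw [← le_sub_lt, ← le_sub_lt]
  unfold lk; ring

/-- first coefficient of a pair, base or not -/
def lkc (P : Prop) [Decidable P] (a b : Λ × Λ) : ℤ := if P then lkb a b else lk a b

theorem lkc_eq (P : Prop) [Decidable P] (a b : Λ × Λ) :
    lkc P a b = lk a b + if P then dl a.1 b.1 else 0 := by
  unfold lkc
  split_ifs
  · rw [lkb_eq]
  · ring

end coef

section darts

variable {D V Λ : Type*} [LinearOrder Λ] (G : Rib D V Λ)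

theorem dl_pos (x y : D) : dl (G.pos x) (G.pos y) = dl x y := by
  by_cases h : x = y
  · rw [dl_true h, dl_true (by rw [h])]
  · rw [dl_false h, dl_false (fun h' => h (G.pos_inj h'))]

theorem inv_inj {x y : D} (h : G.inv x = G.inv y) : x = y := by
  rw [← G.inv_inv x, h, G.inv_inv]

theorem dl_inv (x y : D) : dl (G.inv x) (G.inv y) = dl x y := by
  by_cases h : x = y
  · rw [dl_true h, dl_true (by rw [h])]
  · rw [dl_false h, dl_false (fun h' => h (inv_inj G h'))]

theorem dl_inv' (x y : D) : dl x (G.inv y) = dl (G.inv x) y := by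
  rw [← dl_inv G x, G.inv_inv]

theorem ipos_inv (x : D) : G.ipos (G.inv x) = G.pos x := by
  unfold Rib.ipos
  rw [G.inv_inv]

end darts

section spur

variable {D V Λ R : Type*} [LinearOrder Λ] [CommRing R] [Inhabited D]

theorem cf_lkc (i o : D → Λ) (w : List D) (j k : ℕ) :
    cf i o w j k = lkc (j = 0) (pass i o w j) (pass i o w k) := rfl

variable (G : Rib D V Λ) (Fc : Set (List D)) (Rl : ℕ → List D → Prop)
    (hL : Lev G Fc Rl) (X : List D → R) (hX : Cls G Fc Rl X) (g : List D → R) (N0 : ℕ)
    (u v : List D) (a e : D) (h1 : e ≠ a) (h2 : e ≠ G.inv a)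
    (hg : ∀ u1 v1, Rl N0 (u1 ++ [a, G.inv a] ++ (v1 ++ [e])) →
      g (u1 ++ [a, G.inv a] ++ (v1 ++ [e])) = g (u1 ++ (v1 ++ [e])))
    (hR : Rl (N0 + 4) (u ++ [a, G.inv a] ++ (v ++ [e])))

include hL hR in
/-- the vertex of the tip -/
theorem tl_facts :
    G.tl ((u ++ [a, G.inv a] ++ (v ++ [e])).getD u.length default) = G.tl a ∧
    G.tl ((u ++ [a, G.inv a] ++ (v ++ [e])).getD (u.length + 1) default) = G.hd a ∧
    G.tl ((u ++ [a, G.inv a] ++ (v ++ [e])).getD (u.length + 2) default) = G.tl a ∧
    (u ++ [a, G.inv a] ++ (v ++ [e])).getD (u.length + 2) default =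
      (v ++ [e]).getD 0 default ∧
    G.tl ((v ++ [e]).getD 0 default) = G.tl a := by
  have hcw : CW G (u ++ [a, G.inv a] ++ (v ++ [e])) := hL.cw _ _ hR
  have hlen := length_w u [a, G.inv a] v e
  have hq : ([a, G.inv a] : List D).length = 2 := rfl
  rw [hq] at hlen
  have g0 := get_f u [a, G.inv a] v e (c := 0) (by rw [hq]; omega)
  have g1 := get_f u [a, G.inv a] v e (c := 1) (by rw [hq]; omega)
  have g2 := get_v u [a, G.inv a] v e (k := 0)
  rw [hq, Nat.add_zero] at g2
  rw [Nat.add_zero] at g0
  have e0 : ([a, G.inv a] : List D).getD 0 default = a := rfl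
  have e1 : ([a, G.inv a] : List D).getD 1 default = G.inv a := rfl
  rw [e0] at g0
  rw [e1] at g1
  have t2 := in_tl hcw (k := u.length + 2) (by omega)
  rw [if_neg (by omega)] at t2
  have e3 : u.length + 2 - 1 = u.length + 1 := by omega
  rw [e3, g1] at t2
  have e4 : G.hd (G.inv a) = G.tl a := by unfold Rib.hd; rw [G.inv_inv]
  rw [e4] at t2
  refine ⟨by rw [g0], by rw [g1]; rfl, t2.symm, g2, ?_⟩
  rw [g2] at t2
  exact t2.symm

include hL hX h1 h2 hg hR in
theorem spur_before (j : ℕ) (hj : j < u.length) :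
    ∑ c ∈ range (([a, G.inv a] : List D).length + 1),
        T G X g (u ++ [a, G.inv a] ++ (v ++ [e])) j (u.length + c) -
      T G X g (u ++ [] ++ (v ++ [e])) j u.length = 0 := by
  have hcw : CW G (u ++ [a, G.inv a] ++ (v ++ [e])) := hL.cw _ _ hR
  have hR' : Rl (N0 + 3) (u ++ [] ++ (v ++ [e])) := by
    rw [List.append_nil]
    exact hL.del _ _ _ hR (Del.spur u a (v ++ [e]))
  have hcw' : CW G (u ++ [] ++ (v ++ [e])) := hL.cw _ _ hR'
  have hlen := length_w u [a, G.inv a] v e
  have hlen' := length_w u [] v e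
  have hq : ([a, G.inv a] : List D).length = 2 := rfl
  rw [hq] at hlen
  rw [List.length_nil] at hlen'
  obtain ⟨ta, tb, tc, gv, tv⟩ := tl_facts G Fc Rl hL N0 u v a e hR
  rw [hq, Finset.sum_range_succ, Finset.sum_range_succ, Finset.sum_range_one, Nat.add_zero]
  -- coefficients
  have c1 : cf G.ipos G.pos (u ++ [a, G.inv a] ++ (v ++ [e])) j (u.length + 1) = 0 := by
    rw [cf_lkc, lkc_eq, pass_u _ _ u _ v e hj, pass_f (c := 0) _ _ u _ v e (by rw [hq]; omega)]
    have e0 : ([a, G.inv a] : List D).getD 0 default = a := rfl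
    have e1 : ([a, G.inv a] : List D).getD (0 + 1) default = G.inv a := rfl
    rw [e0, e1]
    have e2 : G.ipos a = G.pos (G.inv a) := rfl
    rw [e2, lk_const, zero_add]
    by_cases h0 : j = 0
    · rw [if_pos h0]
      have e3 : pu u e j = e := by unfold pu; rw [if_pos h0]
      rw [e3]
      have e4 : G.ipos e = G.pos (G.inv e) := rfl
      rw [e4, dl_pos, dl_inv, dl_false h1]
    · rw [if_neg h0]
  have c2 : cf G.ipos G.pos (u ++ [a, G.inv a] ++ (v ++ [e])) j u.length +
      cf G.ipos G.pos (u ++ [a, G.inv a] ++ (v ++ [e])) j (u.length + 2) =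
      cf G.ipos G.pos (u ++ [] ++ (v ++ [e])) j u.length := by
    rw [cf_lkc, cf_lkc, cf_lkc, lkc_eq, lkc_eq, lkc_eq, pass_u _ _ u _ v e hj,
      pass_u _ _ u _ v e hj, pass_p0 _ _ u _ v e (by rw [hq]; omega),
      pass_q (c := 1) _ _ u [a, G.inv a] v e rfl, pass_p]
    have e0 : ([a, G.inv a] : List D).getD 0 default = a := rfl
    have e1 : ([a, G.inv a] : List D).getD 1 default = G.inv a := rfl
    rw [e0, e1, ipos_inv]
    have h := lk_add (G.ipos (pu u e j), G.pos (u.getD j default)) (G.ipos (pu u e u.length))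
      (G.pos a) (G.pos ((v ++ [e]).getD 0 default))
    have h' : (if j = 0 then dl (G.ipos (pu u e j)) (G.pos a) else 0 : ℤ) = 0 := by
      by_cases h0 : j = 0
      · rw [if_pos h0]
        have e3 : pu u e j = e := by unfold pu; rw [if_pos h0]
        rw [e3]
        have e4 : G.ipos e = G.pos (G.inv e) := rfl
        rw [e4, dl_pos]
        apply dl_false
        intro h
        apply h2
        rw [← h, G.inv_inv]
      · rw [if_neg h0]
    simp only [] at h' ⊢
    rw [h', ← h]
    ring
  by_cases ht : G.tl ((u ++ [a, G.inv a] ++ (v ++ [e])).getD j default) =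
      G.tl ((u ++ [a, G.inv a] ++ (v ++ [e])).getD u.length default)
  · have ht2 : G.tl ((u ++ [a, G.inv a] ++ (v ++ [e])).getD j default) =
      G.tl ((u ++ [a, G.inv a] ++ (v ++ [e])).getD (u.length + 2) default) := by
      rw [ht, ta, tc]
    have l0 := leaf_uf u [a, G.inv a] v e hj.le (c := 0) (by omega)
    have r0 := rest_uf u [a, G.inv a] v e hj.le (c := 0) (by omega)
    have l2 := leaf_uf u [a, G.inv a] v e hj.le (c := 2) (by rw [hq])
    have r2 := rest_uf u [a, G.inv a] v e hj.le (c := 2) (by rw [hq])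
    have l' : leaf (u ++ [] ++ (v ++ [e])) j u.length = u.drop j := by
      have := leaf_uf u [] v e hj.le (c := 0) (by omega)
      rw [Nat.add_zero] at this
      rw [this, List.take_zero, List.append_nil]
    have r' : rest (u ++ [] ++ (v ++ [e])) j u.length = u.take j ++ (v ++ [e]) := by
      have := rest_uf u [] v e hj.le (c := 0) (by omega)
      rw [Nat.add_zero] at this
      rw [this, List.drop_zero, List.append_nil]
    simp only [Nat.add_zero, List.take_zero, List.drop_zero, List.append_nil] at l0 r0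
    have e3 : ([a, G.inv a] : List D).take 2 = [a, G.inv a] := rfl
    have e4 : ([a, G.inv a] : List D).drop 2 = [] := rfl
    rw [e3] at l2
    rw [e4, List.append_nil] at r2
    have hl := hL.cutl (N0 + 3) _ j _ hR (by omega) (by omega) ht2
    have hr := hL.cutr (N0 + 3) _ j _ hR hj (by omega) ht
    rw [l2] at hl
    rw [r0] at hr
    have x1 : X (u.drop j ++ [a, G.inv a]) = X (u.drop j) := by
      have := X_del hL hX (Del.spur (u.drop j) a []) (n := N0 + 2)
        (by rw [List.append_nil]; exact hl)
      rw [List.append_nil, List.append_nil] at this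
      exact this
    have g1 := hg _ _ (mono_le hL (by omega) hr)
    unfold T
    rw [l0, r0, l2, r2, l', r', x1, g1, c1, ← c2]
    push_cast
    ring
  · rw [T_zero G X g hcw (by omega) (by omega) ht,
      T_zero G X g hcw (j := j) (k := u.length + 2) (by omega) (by omega)
        (by rw [tc]; rw [ta] at ht; exact ht)]
    have ht' : G.tl ((u ++ [] ++ (v ++ [e])).getD j default) ≠
        G.tl ((u ++ [] ++ (v ++ [e])).getD u.length default) := by
      have g3 := get_v u [] v e (k := 0)
      rw [List.length_nil, Nat.add_zero] at g3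
      rw [g3, tv, get_u u [] v e hj]
      rw [get_u u _ v e hj, ta] at ht
      exact ht
    rw [T_zero G X g hcw' (by omega) (by omega) ht']
    unfold T
    rw [c1]
    simp

include hL hX hR in
theorem spur_inner :
    ∑ c ∈ range (([a, G.inv a] : List D).length + 1), ∑ d ∈ range c,
        T G X g (u ++ [a, G.inv a] ++ (v ++ [e])) (u.length + d) (u.length + c) = 0 := by
  have hcw : CW G (u ++ [a, G.inv a] ++ (v ++ [e])) := hL.cw _ _ hR
  have hlen := length_w u [a, G.inv a] v e
  have hq : ([a, G.inv a] : List D).length = 2 := rfl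
  rw [hq] at hlen
  obtain ⟨ta, tb, tc, gv, tv⟩ := tl_facts G Fc Rl hL N0 u v a e hR
  have hne : G.hd a ≠ G.tl a := G.noloop a
  rw [hq, Finset.sum_range_succ, Finset.sum_range_succ, Finset.sum_range_one,
    Finset.sum_range_zero, Finset.sum_range_one, Finset.sum_range_succ, Finset.sum_range_one,
    Nat.add_zero]
  rw [T_zero G X g hcw (j := u.length) (k := u.length + 1) (by omega) (by omega)
        (by rw [ta, tb]; exact hne.symm),
      T_zero G X g hcw (j := u.length + 1) (k := u.length + 2) (by omega) (by omega)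
        (by rw [tb, tc]; exact hne)]
  have l2 := leaf_ff u [a, G.inv a] v e (d := 0) (c := 2) (by omega) (by rw [hq])
  rw [Nat.add_zero, List.drop_zero] at l2
  have e3 : ([a, G.inv a] : List D).take 2 = [a, G.inv a] := rfl
  rw [e3] at l2
  have hl := hL.cutl (N0 + 3) _ u.length (u.length + 2) hR (by omega) (by omega) (by rw [ta, tc])
  rw [l2] at hl
  have x1 : X [a, G.inv a] = 0 := by
    have := X_del hL hX (Del.spur [] a []) (n := N0 + 2) (by simpa using hl)
    simp only [List.nil_append, List.append_nil] at this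
    rw [this, hX.nil]
  unfold T
  rw [l2, x1]
  ring

/-- product 0 -/
def F0 (k : ℕ) : R := X (v.take k) * g (u ++ (v.drop k ++ [e]))

/-- product 1 -/
def F1 (k : ℕ) : R := X (G.inv a :: v.take k) * g (u ++ [a] ++ (v.drop k ++ [e]))

include hL hX hg hR in
theorem spur_after (t : ℕ) (ht0 : t < v.length) :
    ∑ d ∈ range (([a, G.inv a] : List D).length + 1),
        T G X g (u ++ [a, G.inv a] ++ (v ++ [e])) (u.length + d)
          (u.length + ([a, G.inv a] : List D).length + 1 + t) -
      T G X g (u ++ [] ++ (v ++ [e])) u.length (u.length + 1 + t) =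
    ((dl ((v ++ [e]).getD (t + 1) default) a : ℤ) : R) * F0 X g u v e (t + 1) -
    ((dl ((v ++ [e]).getD t default) (G.inv a) : ℤ) : R) * F0 X g u v e (t + 1) +
    ((dl ((v ++ [e]).getD (t + 1) default) (G.inv a) : ℤ) : R) * F1 G X g u v a e (t + 1) -
    ((dl ((v ++ [e]).getD t default) a : ℤ) : R) * F1 G X g u v a e (t + 1) := by
  have hcw : CW G (u ++ [a, G.inv a] ++ (v ++ [e])) := hL.cw _ _ hR
  have hR' : Rl (N0 + 3) (u ++ [] ++ (v ++ [e])) := by
    rw [List.append_nil]
    exact hL.del _ _ _ hR (Del.spur u a (v ++ [e]))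
  have hcw' : CW G (u ++ [] ++ (v ++ [e])) := hL.cw _ _ hR'
  have hlen := length_w u [a, G.inv a] v e
  have hlen' := length_w u [] v e
  have hq : ([a, G.inv a] : List D).length = 2 := rfl
  rw [hq] at hlen
  rw [List.length_nil] at hlen'
  obtain ⟨ta, tb, tc, gv, tv⟩ := tl_facts G Fc Rl hL N0 u v a e hR
  have i1 : u.length + ([a, G.inv a] : List D).length + 1 + t =
      u.length + ([a, G.inv a] : List D).length + (t + 1) := by ring
  have i2 : u.length + 1 + t = u.length + ([] : List D).length + (t + 1) := by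
    rw [List.length_nil]; ring
  rw [i1, i2, Finset.sum_congr (show range (([a, G.inv a] : List D).length + 1) = range 3 from rfl)
    (fun _ _ => rfl), Finset.sum_range_succ, Finset.sum_range_succ, Finset.sum_range_one,
    Nat.add_zero]
  set K' := u.length + ([a, G.inv a] : List D).length + (t + 1) with hK'
  have hKv : K' = u.length + 2 + (t + 1) := rfl
  have e0 : ([a, G.inv a] : List D).getD 0 default = a := rfl
  have e1 : ([a, G.inv a] : List D).getD 1 default = G.inv a := rfl
  have e1' : ([a, G.inv a] : List D).getD (0 + 1) default = G.inv a := rfl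
  set V0 := (v ++ [e]).getD t default with hV0
  set V1 := (v ++ [e]).getD (t + 1) default with hV1
  have pK : pass G.ipos G.pos (u ++ [a, G.inv a] ++ (v ++ [e])) K' = (G.ipos V0, G.pos V1) :=
    pass_v _ _ u _ v e t
  have pK' : pass G.ipos G.pos (u ++ [] ++ (v ++ [e])) (u.length + ([] : List D).length + (t + 1))
      = (G.ipos V0, G.pos V1) := pass_v _ _ u _ v e t
  have d1 : dl (G.pos a) (G.pos V1) = dl V1 a := by rw [dl_pos, dl_comm]
  have d2 : dl (G.pos a) (G.ipos V0) = dl V0 (G.inv a) := by
    have : G.ipos V0 = G.pos (G.inv V0) := rfl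
    rw [this, dl_pos, dl_comm, ← dl_inv']
  have d3 : dl (G.ipos a) (G.pos V1) = dl V1 (G.inv a) := by
    have : G.ipos a = G.pos (G.inv a) := rfl
    rw [this, dl_pos, dl_comm]
  have d4 : dl (G.ipos a) (G.ipos V0) = dl V0 a := by
    have h3 : G.ipos a = G.pos (G.inv a) := rfl
    have h4 : G.ipos V0 = G.pos (G.inv V0) := rfl
    rw [h3, h4, dl_pos, dl_inv, dl_comm]
  -- coefficients
  have c1 : cf G.ipos G.pos (u ++ [a, G.inv a] ++ (v ++ [e])) (u.length + 1) K' =
      dl V1 (G.inv a) - dl V0 a := by
    rw [cf_lkc, lkc_eq, pK, pass_f (c := 0) _ _ u _ v e (by rw [hq]; omega), e0, e1',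
      if_neg (by omega)]
    have e2 : G.pos (G.inv a) = G.ipos a := rfl
    rw [e2, lk_diag, add_zero, d3, d4]
  have c2 : cf G.ipos G.pos (u ++ [a, G.inv a] ++ (v ++ [e])) u.length K' +
      cf G.ipos G.pos (u ++ [a, G.inv a] ++ (v ++ [e])) (u.length + 2) K' -
      cf G.ipos G.pos (u ++ [] ++ (v ++ [e])) u.length
        (u.length + ([] : List D).length + (t + 1)) = dl V1 a - dl V0 (G.inv a) := by
    rw [cf_lkc, cf_lkc, cf_lkc, lkc_eq, lkc_eq, lkc_eq, pK, pK',
      pass_p0 _ _ u _ v e (by rw [hq]; omega),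
      pass_q (c := 1) _ _ u [a, G.inv a] v e rfl, pass_p, e0, e1, ipos_inv,
      if_neg (by omega : ¬ u.length + 2 = 0)]
    have h := lk_diff (G.ipos (pu u e u.length)) (G.pos a) (G.pos ((v ++ [e]).getD 0 default))
      (G.ipos V0, G.pos V1)
    simp only [] at h ⊢
    rw [d1, d2] at h
    linarith
  -- leaves and rests
  have l0 := leaf_fv u [a, G.inv a] v e (c := 0) (k := t + 1) (by omega) (by omega)
  have r0 := rest_fv u [a, G.inv a] v e (c := 0) (k := t + 1) (by omega) (by omega)
  have l1 := leaf_fv u [a, G.inv a] v e (c := 1) (k := t + 1) (by rw [hq]; omega) (by omega)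
  have r1 := rest_fv u [a, G.inv a] v e (c := 1) (k := t + 1) (by rw [hq]; omega) (by omega)
  have l2 := leaf_fv u [a, G.inv a] v e (c := 2) (k := t + 1) (by rw [hq]) (by omega)
  have r2 := rest_fv u [a, G.inv a] v e (c := 2) (k := t + 1) (by rw [hq]) (by omega)
  have l' : leaf (u ++ [] ++ (v ++ [e])) u.length (u.length + ([] : List D).length + (t + 1)) =
      v.take (t + 1) := by
    have := leaf_fv u [] v e (c := 0) (k := t + 1) (by omega) (by omega)
    rw [Nat.add_zero] at this
    rw [this, List.drop_zero, List.nil_append]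
  have r' : rest (u ++ [] ++ (v ++ [e])) u.length (u.length + ([] : List D).length + (t + 1)) =
      u ++ (v.drop (t + 1) ++ [e]) := by
    have := rest_fv u [] v e (c := 0) (k := t + 1) (by omega) (by omega)
    rw [Nat.add_zero] at this
    rw [this, List.take_zero, List.append_nil]
  simp only [Nat.add_zero, List.take_zero, List.drop_zero, List.append_nil] at l0 r0
  have e3 : ([a, G.inv a] : List D).take 2 = [a, G.inv a] := rfl
  have e4 : ([a, G.inv a] : List D).drop 2 = [] := rfl
  have e5 : ([a, G.inv a] : List D).take 1 = [a] := rfl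
  have e6 : ([a, G.inv a] : List D).drop 1 = [G.inv a] := rfl
  rw [e4, List.nil_append] at l2
  rw [e3] at r2
  rw [e6] at l1
  rw [e5] at r1
  rw [← hK'] at l0 r0 l1 r1 l2 r2
  have mid : T G X g (u ++ [a, G.inv a] ++ (v ++ [e])) (u.length + 1) K' =
      (((dl V1 (G.inv a) - dl V0 a : ℤ)) : R) * F1 G X g u v a e (t + 1) := by
    unfold T F1
    rw [l1, r1, c1]
    simp only [List.singleton_append]
    ring
  have hvK : (u ++ [a, G.inv a] ++ (v ++ [e])).getD K' default = V1 := get_v u _ v e
  by_cases ht : G.tl ((u ++ [a, G.inv a] ++ (v ++ [e])).getD u.length default) =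
      G.tl ((u ++ [a, G.inv a] ++ (v ++ [e])).getD K' default)
  · have ht2 : G.tl ((u ++ [a, G.inv a] ++ (v ++ [e])).getD (u.length + 2) default) =
      G.tl ((u ++ [a, G.inv a] ++ (v ++ [e])).getD K' default) := by
      rw [← ht, ta, tc]
    have hl := hL.cutl (N0 + 3) _ _ _ hR (by omega) (by omega) ht
    have hr := hL.cutr (N0 + 3) _ _ _ hR (by omega) (by omega) ht2
    rw [l0] at hl
    rw [r2] at hr
    have x1 : X ([a, G.inv a] ++ v.take (t + 1)) = X (v.take (t + 1)) :=
      X_del hL hX (Del.spur [] a (v.take (t + 1))) (n := N0 + 2) hl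
    have g1 := hg _ _ (mono_le hL (by omega) hr)
    have t0 : T G X g (u ++ [a, G.inv a] ++ (v ++ [e])) u.length K' =
        ((cf G.ipos G.pos (u ++ [a, G.inv a] ++ (v ++ [e])) u.length K' : ℤ) : R) *
          F0 X g u v e (t + 1) := by
      unfold T F0
      rw [l0, r0, x1]; ring
    have t2 : T G X g (u ++ [a, G.inv a] ++ (v ++ [e])) (u.length + 2) K' =
        ((cf G.ipos G.pos (u ++ [a, G.inv a] ++ (v ++ [e])) (u.length + 2) K' : ℤ) : R) *
          F0 X g u v e (t + 1) := by
      unfold T F0
      rw [l2, r2, g1]; ring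
    have t' : T G X g (u ++ [] ++ (v ++ [e])) u.length
        (u.length + ([] : List D).length + (t + 1)) =
        ((cf G.ipos G.pos (u ++ [] ++ (v ++ [e])) u.length
          (u.length + ([] : List D).length + (t + 1)) : ℤ) : R) *
          F0 X g u v e (t + 1) := by
      unfold T F0
      rw [l', r']; ring
    rw [mid, t0, t2, t']
    have c2' : ((cf G.ipos G.pos (u ++ [a, G.inv a] ++ (v ++ [e])) u.length K' : ℤ) : R) +
      ((cf G.ipos G.pos (u ++ [a, G.inv a] ++ (v ++ [e])) (u.length + 2) K' : ℤ) : R) -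
      ((cf G.ipos G.pos (u ++ [] ++ (v ++ [e])) u.length
        (u.length + ([] : List D).length + (t + 1)) : ℤ) : R) =
        ((dl V1 a : ℤ) : R) - ((dl V0 (G.inv a) : ℤ) : R) := by
      have := congrArg (fun z : ℤ => (z : R)) c2
      push_cast at this
      exact this
    push_cast
    linear_combination (F0 X g u v e (t + 1)) * c2'
  · have ht2 : G.tl ((u ++ [a, G.inv a] ++ (v ++ [e])).getD (u.length + 2) default) ≠
      G.tl ((u ++ [a, G.inv a] ++ (v ++ [e])).getD K' default) := by
      rw [ta] at ht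
      rw [tc]
      exact ht
    have g3 := get_v u [] v e (k := 0)
    rw [List.length_nil, Nat.add_zero] at g3
    have ht' : G.tl ((u ++ [] ++ (v ++ [e])).getD u.length default) ≠
        G.tl ((u ++ [] ++ (v ++ [e])).getD (u.length + ([] : List D).length + (t + 1)) default) := by
      rw [g3, tv, get_v]
      rw [ta, hvK] at ht
      exact ht
    rw [T_zero G X g hcw (by omega) (by omega) ht, T_zero G X g hcw (by omega) (by omega) ht2,
      T_zero G X g hcw' (by omega) (by rw [List.length_nil]; omega) ht', mid]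
    have hV1a : V1 ≠ a := by
      intro h
      rw [ta, hvK, h] at ht
      exact ht rfl
    have hV0a : V0 ≠ G.inv a := by
      intro h
      have hs := in_tl hcw (k := K') (by omega)
      rw [if_neg (by omega), hvK] at hs
      have e7 : K' - 1 = u.length + ([a, G.inv a] : List D).length + t := by omega
      rw [e7, get_v, ← hV0, h] at hs
      have e4 : G.hd (G.inv a) = G.tl a := by unfold Rib.hd; rw [G.inv_inv]
      rw [e4] at hs
      rw [ta, hvK] at ht
      exact ht hs
    rw [dl_false hV1a, dl_false hV0a]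
    push_cast
    ring

/-- telescoping term -/
noncomputable def Sp (k : ℕ) : R :=
  if k = 0 then 0 else
    ((dl ((v ++ [e]).getD k default) a : ℤ) : R) * F0 X g u v e k +
    ((dl ((v ++ [e]).getD k default) (G.inv a) : ℤ) : R) * F1 G X g u v a e k

theorem getD_v {D : Type*} [Inhabited D] (v : List D) (e : D) {t : ℕ} (ht : t < v.length) :
    (v ++ [e]).getD t default = v[t] := by
  rw [List.getD_append _ _ _ _ ht, List.getD_eq_getElem _ _ ht]

include hL hX hg hR in
theorem spur_tel (t : ℕ) (ht0 : t < v.length) :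
    ((dl ((v ++ [e]).getD t default) (G.inv a) : ℤ) : R) * F0 X g u v e (t + 1) +
    ((dl ((v ++ [e]).getD t default) a : ℤ) : R) * F1 G X g u v a e (t + 1) =
    Sp G X g u v a e t := by
  have hcw : CW G (u ++ [a, G.inv a] ++ (v ++ [e])) := hL.cw _ _ hR
  have hlen := length_w u [a, G.inv a] v e
  have hq : ([a, G.inv a] : List D).length = 2 := rfl
  rw [hq] at hlen
  obtain ⟨ta, tb, tc, gv, tv⟩ := tl_facts G Fc Rl hL N0 u v a e hR
  have hne : G.hd a ≠ G.tl a := G.noloop a
  have haa : a ≠ G.inv a := by
    intro h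
    apply hne
    unfold Rib.hd
    rw [← h]
  have e6 : ([a, G.inv a] : List D).drop 1 = [G.inv a] := rfl
  have e5 : ([a, G.inv a] : List D).take 1 = [a] := rfl
  have htk : v.take (t + 1) = v.take t ++ [(v ++ [e]).getD t default] := by
    rw [getD_v v e ht0, List.take_append_getElem ht0]
  have hdk : v.drop t = (v ++ [e]).getD t default :: v.drop (t + 1) := by
    rw [getD_v v e ht0, List.getElem_cons_drop ht0]
  by_cases hVa : (v ++ [e]).getD t default = a
  · -- `V t = a`
    rw [hVa] at htk hdk
    have hstep : G.tl ((v ++ [e]).getD (t + 1) default) = G.hd a := by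
      have hs := in_tl hcw (k := u.length + 2 + (t + 1)) (by omega)
      rw [if_neg (by omega)] at hs
      have g1 := get_v u [a, G.inv a] v e (k := t + 1)
      have g0 := get_v u [a, G.inv a] v e (k := t)
      rw [hq] at g1 g0
      have e7 : u.length + 2 + (t + 1) - 1 = u.length + 2 + t := by omega
      rw [e7, g1, g0, hVa] at hs
      exact hs.symm
    have hcut : Rl (N0 + 3) ([G.inv a] ++ v.take (t + 1)) := by
      have l1 := leaf_fv u [a, G.inv a] v e (c := 1) (k := t + 1) (by rw [hq]; omega) (by omega)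
      rw [e6] at l1
      rw [← l1]
      apply hL.cutl (N0 + 3) _ _ _ hR (by rw [hq]; omega) (by rw [hq]; omega)
      rw [tb, get_v, hstep]
    rw [hVa, dl_true rfl, dl_false haa]
    by_cases h0 : t = 0
    · have hS : Sp G X g u v a e t = 0 := by unfold Sp; rw [if_pos h0]
      rw [hS]
      rw [htk, h0, List.take_zero, List.nil_append] at hcut
      have x1 : X [G.inv a, a] = 0 := by
        have := X_del hL hX (Del.spur [] (G.inv a) []) (n := N0 + 2) (by
          rw [G.inv_inv]; simpa using hcut)
        simp only [List.nil_append, List.append_nil, G.inv_inv] at this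
        rw [this, hX.nil]
      unfold F1
      rw [htk, h0, List.take_zero, List.nil_append, x1]
      push_cast
      ring
    · unfold Sp
      rw [if_neg h0, hVa, dl_true rfl, dl_false haa]
      have x1 : X (G.inv a :: v.take (t + 1)) = X (v.take t) := by
        rw [hX.rot, htk]
        have h5 : Rl (N0 + 3) (v.take (t + 1) ++ [G.inv a]) := by
          apply hL.rot
          simpa using hcut
        rw [htk] at h5
        have := X_del hL hX (Del.spur (v.take t) a []) (n := N0 + 2) (by
          simpa using h5)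
        simpa using this
      have e8 : u ++ [a] ++ (v.drop (t + 1) ++ [e]) = u ++ (v.drop t ++ [e]) := by
        rw [hdk]
        simp
      unfold F1 F0
      rw [x1, e8]
      push_cast
      ring
  · rw [dl_false hVa]
    by_cases hVb : (v ++ [e]).getD t default = G.inv a
    · rw [dl_true hVb]
      rw [hVb] at htk hdk
      have h0 : t ≠ 0 := by
        intro h0
        rw [h0] at hVb
        rw [hVb] at tv
        exact hne tv
      unfold Sp
      rw [if_neg h0, hVb, dl_true rfl, dl_false (fun h => haa h.symm)]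
      have x1 : X (v.take (t + 1)) = X (G.inv a :: v.take t) := by
        rw [hX.rot, htk]
      have e8 : u ++ [a] ++ (v.drop t ++ [e]) = u ++ [a, G.inv a] ++ (v.drop (t + 1) ++ [e]) := by
        rw [hdk]
        simp
      have hcut : Rl (N0 + 3) (u ++ [a] ++ (v.drop t ++ [e])) := by
        have r1 := rest_fv u [a, G.inv a] v e (c := 1) (k := t) (by rw [hq]; omega) (by omega)
        rw [e5] at r1
        rw [← r1]
        apply hL.cutr (N0 + 3) _ _ _ hR (by rw [hq]; omega) (by rw [hq]; omega)
        rw [tb, get_v, hVb]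
        rfl
      rw [e8] at hcut
      have g1 := hg _ _ (mono_le hL (by omega) hcut)
      unfold F1 F0
      rw [x1, e8, g1]
      push_cast
      ring
    · rw [dl_false hVb]
      unfold Sp
      by_cases h0 : t = 0
      · rw [if_pos h0]
        push_cast
        ring
      · rw [if_neg h0, dl_false hVa, dl_false hVb]
        push_cast
        ring

include hL hX h1 h2 hg hR in
theorem spur_step :
    L G.ipos G.pos X g (u ++ [a, G.inv a] ++ (v ++ [e])) =
      L G.ipos G.pos X g (u ++ (v ++ [e])) := by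
  rw [main_split G Fc Rl hL X hX g N0 u [a, G.inv a] v e (fun u1 v1 => Del.spur u1 a v1) hg hR]
  rw [Finset.sum_eq_zero (fun j hj =>
    spur_before G Fc Rl hL X hX g N0 u v a e h1 h2 hg hR j (mem_range.1 hj))]
  rw [spur_inner G Fc Rl hL X hX g N0 u v a e hR]
  have hsum : ∑ t ∈ range v.length, (∑ d ∈ range (([a, G.inv a] : List D).length + 1),
        T G X g (u ++ [a, G.inv a] ++ (v ++ [e])) (u.length + d)
          (u.length + ([a, G.inv a] : List D).length + 1 + t) -
      T G X g (u ++ [] ++ (v ++ [e])) u.length (u.length + 1 + t)) =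
      ∑ t ∈ range v.length, (Sp G X g u v a e (t + 1) - Sp G X g u v a e t) := by
    apply Finset.sum_congr rfl
    intro t ht
    rw [spur_after G Fc Rl hL X hX g N0 u v a e hg hR t (mem_range.1 ht),
      ← spur_tel G Fc Rl hL X hX g N0 u v a e hg hR t (mem_range.1 ht)]
    have e9 : Sp G X g u v a e (t + 1) =
        ((dl ((v ++ [e]).getD (t + 1) default) a : ℤ) : R) * F0 X g u v e (t + 1) +
        ((dl ((v ++ [e]).getD (t + 1) default) (G.inv a) : ℤ) : R) *
          F1 G X g u v a e (t + 1) := by
      unfold Sp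
      rw [if_neg (by omega)]
    rw [e9]
    ring
  rw [hsum, Finset.sum_range_sub]
  have hS : Sp G X g u v a e v.length = 0 := by
    unfold Sp
    split_ifs with h0
    · rfl
    · have : (v ++ [e]).getD v.length default = e := by
        rw [List.getD_append_right _ _ _ _ le_rfl, Nat.sub_self]
        rfl
      rw [this, dl_false h1, dl_false h2]
      push_cast
      ring
  have hS0 : Sp G X g u v a e 0 = 0 := by
    unfold Sp
    rw [if_pos rfl]
  rw [hS, hS0, List.append_nil]
  ring

end spur

end Ins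

variable {D V Λ R : Type*} [LinearOrder Λ] [CommRing R] [Inhabited D]

theorem K_spur (G : Rib D V Λ) (Fc : Set (List D)) (Rl : ℕ → List D → Prop)
    (hL : Lev G Fc Rl) (X : List D → R) (hX : Cls G Fc Rl X) (n : ℕ) (u v : List D) (a e : D)
    (h1 : e ≠ a) (h2 : e ≠ G.inv a)
    (hR : Rl (4 * n + 4) (u ++ [a, G.inv a] ++ (v ++ [e]))) :
    K G.ipos G.pos X n (u ++ [a, G.inv a] ++ (v ++ [e]))
      = K G.ipos G.pos X n (u ++ (v ++ [e])) := by
  induction n generalizing u v with
  | zero =>
    show X (u ++ [a, G.inv a] ++ (v ++ [e])) = X (u ++ (v ++ [e]))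
    exact Ins.X_del hL hX (Del.spur u a (v ++ [e])) (n := 3) hR
  | succ n ih =>
    show L G.ipos G.pos X (K G.ipos G.pos X n) (u ++ [a, G.inv a] ++ (v ++ [e])) =
      L G.ipos G.pos X (K G.ipos G.pos X n) (u ++ (v ++ [e]))
    exact Ins.spur_step G Fc Rl hL X hX (K G.ipos G.pos X n) (4 * n + 4) u v a e h1 h2
      (fun u1 v1 h => ih u1 v1 h) hR

end Pool.Agent.TH317.CC
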