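import Pool.Agent.TH37.HG.Stmts

set_option autoImplicit false

/-!
Job HG-GEN of the project MP_364ede_al: generic freeness (P. Hall) for finitely generated modules
over the group ring of a polycyclic group.
-/

namespace Pool.Agent.TH267.HG

open Pool.Agent.TH37.HG
open Pool.Agent.Helper294.HallC (PC FGM Stb Noe poly_ind)

section

variable {J M G : Type} [CommRing J] [AddCommGroup M] [Module J M]
    [Group G] [DistribMulAction G M] [SMulCommClass G J M]

/-- translate of a submodule -/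
def tm (g : G) (B : Submodule J M) : Submodule J M :=
  B.map (DistribMulAction.toLinearEquiv J M g).toLinearMap

omit [SMulCommClass G J M] in
theorem inv_smul_smul'' (g : G) (x : M) : g⁻¹ • g • x = x := inv_smul_smul g x

theorem mem_tm {g : G} {B : Submodule J M} {x : M} : x ∈ tm g B ↔ g⁻¹ • x ∈ B := by
  unfold tm
  rw [Submodule.mem_map]
  constructor
  · rintro ⟨y, hy, rfl⟩
    have : g⁻¹ • ((DistribMulAction.toLinearEquiv J M g).toLinearMap y) = y := inv_smul_smul g y
    rw [this]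
    exact hy
  · intro h
    exact ⟨g⁻¹ • x, h, smul_inv_smul g x⟩

theorem smul_mem_tm {g : G} {B : Submodule J M} {x : M} (hx : x ∈ B) : g • x ∈ tm g B := by
  rw [mem_tm, inv_smul_smul]
  exact hx

theorem tm_mono {g : G} {A B : Submodule J M} (h : A ≤ B) : tm g A ≤ tm g B := by
  intro x hx
  rw [mem_tm] at hx ⊢
  exact h hx

theorem tm_tm (g h : G) (B : Submodule J M) : tm g (tm h B) = tm (g * h) B := by
  ext x
  rw [mem_tm, mem_tm, mem_tm, mul_inv_rev, mul_smul]

theorem tm_one (B : Submodule J M) : tm (1 : G) B = B := by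
  ext x
  rw [mem_tm, inv_one, one_smul]

theorem tm_inf (g : G) (A B : Submodule J M) : tm g (A ⊓ B) = tm g A ⊓ tm g B := by
  ext x
  rw [Submodule.mem_inf, mem_tm, mem_tm, mem_tm, Submodule.mem_inf]

theorem tm_sup (g : G) (A B : Submodule J M) : tm g (A ⊔ B) = tm g A ⊔ tm g B := by
  unfold tm
  exact Submodule.map_sup _ _ _

theorem stJ_iff {H : Subgroup G} {A : Submodule J M} : StJ H A ↔ ∀ g ∈ H, tm g A ≤ A := by
  constructor
  · intro h g hg x hx
    rw [mem_tm] at hx
    have := h g hg _ hx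
    rwa [smul_inv_smul] at this
  · intro h g hg x hx
    exact h g hg (smul_mem_tm hx)

theorem stJ_sup {H : Subgroup G} {A B : Submodule J M} (hA : StJ H A) (hB : StJ H B) :
    StJ H (A ⊔ B) := by
  rw [stJ_iff] at *
  intro g hg
  rw [tm_sup]
  exact sup_le_sup (hA g hg) (hB g hg)

omit [SMulCommClass G J M] in
theorem stJ_mono {H K : Subgroup G} {A : Submodule J M} (h : K ≤ H) (hA : StJ H A) : StJ K A :=
  fun g hg => hA g (h hg)

omit [SMulCommClass G J M] in
theorem mem_spJ {H : Subgroup G} {S : Set M} {g : G} (hg : g ∈ H) {s : M} (hs : s ∈ S) :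
    g • s ∈ spJ J H S :=
  Submodule.subset_span ⟨g, hg, s, hs, rfl⟩

omit [SMulCommClass G J M] in
theorem spJ_le {H : Subgroup G} {S : Set M} {B : Submodule J M}
    (h : ∀ g ∈ H, ∀ s ∈ S, g • s ∈ B) : spJ J H S ≤ B := by
  unfold spJ
  rw [Submodule.span_le]
  rintro a ⟨g, hg, s, hs, rfl⟩
  exact h g hg s hs

theorem stJ_spJ (H : Subgroup G) (S : Set M) : StJ H (spJ J H S) := by
  intro g hg x hx
  have h : spJ J H S ≤ tm g⁻¹ (spJ J H S) := by
    apply spJ_le
    intro k hk s hs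
    rw [mem_tm, inv_inv, ← mul_smul]
    exact mem_spJ (H.mul_mem hg hk) hs
  have := h hx
  rw [mem_tm, inv_inv] at this
  exact this

omit [SMulCommClass G J M] in
theorem spJ_insert (H : Subgroup G) (s : M) (S : Set M) :
    spJ J H (insert s S) = spJ J H S ⊔ spJ J H {s} := by
  apply le_antisymm
  · apply spJ_le
    intro g hg x hx
    rcases hx with rfl | hx
    · exact Submodule.mem_sup_right (mem_spJ hg (Set.mem_singleton _))
    · exact Submodule.mem_sup_left (mem_spJ hg hx)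
  · apply sup_le
    · apply spJ_le
      intro g hg x hx
      exact mem_spJ hg (Set.mem_insert_of_mem _ hx)
    · apply spJ_le
      intro g hg x hx
      rw [Set.mem_singleton_iff] at hx
      subst hx
      exact mem_spJ hg (Set.mem_insert _ _)

omit [SMulCommClass G J M] [Group G] [DistribMulAction G M] in
theorem gfs_self (f : J) (C : Submodule J M) : GFs f C C := by
  refine ⟨Empty, fun e => e.elim, fun e => e.elim, fun l _ => Subsingleton.elim _ _, ?_⟩
  intro x hx
  exact ⟨0, by simpa using Submodule.mem_sup_left hx⟩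

/-- the chain `C, C + N, C + N + tN, ...` -/
def Nk (C N : Submodule J M) (t : G) : ℕ → Submodule J M
  | 0 => C
  | k + 1 => Nk C N t k ⊔ tm (t ^ k) N

theorem Nk_mono (C N : Submodule J M) (t : G) : Monotone (Nk C N t) :=
  monotone_nat_of_le_succ (fun _ => le_sup_left)

theorem Nk_smul (C N : Submodule J M) (t : G) (hC : tm t C ≤ C) (k : ℕ) :
    tm t (Nk C N t k) ≤ Nk C N t (k + 1) := by
  induction k with
  | zero => exact hC.trans le_sup_left
  | succ k ih =>
    show tm t (Nk C N t k ⊔ tm (t ^ k) N) ≤ Nk C N t (k + 1) ⊔ tm (t ^ (k + 1)) N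
    rw [tm_sup, tm_tm, ← pow_succ']
    exact sup_le_sup ih le_rfl

theorem step (hN : NoeStmt) (hU : UnionStmt) (hT : TransStmt) (hM : MulStmt) (hI : IsoStmt)
    (hP : MapStmt) [IsDomain J] [IsNoetherianRing J] (hG : PC G) (R P : Subgroup G) (t : G)
    (hRP : R ≤ P) (htP : t ∈ P)
    (hconj : ∀ x, x ∈ R ↔ t * x * t⁻¹ ∈ R) (hgen : ∀ x ∈ P, ∃ k : ℤ, t ^ (-k) * x ∈ R)
    (hR : ∀ C : Submodule J M, StJ R C → ∀ S : Finset M,
      ∃ f : J, f ≠ 0 ∧ GFs f C (C ⊔ spJ J R (S : Set M)))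
    (C : Submodule J M) (hC : StJ P C) (s : M) :
    ∃ f : J, f ≠ 0 ∧ GFs f C (C ⊔ spJ J P {s}) := by
  have hz : ∀ (k : ℕ) (x : G), x ∈ R ↔ t ^ k * x * (t ^ k)⁻¹ ∈ R := by
    intro k
    induction k with
    | zero => intro x; simp
    | succ k ih =>
      intro x
      rw [hconj x, ih (t * x * t⁻¹)]
      have : t ^ k * (t * x * t⁻¹) * (t ^ k)⁻¹ = t ^ (k + 1) * x * (t ^ (k + 1))⁻¹ := by
        rw [pow_succ]; group
      rw [this]
  have hz' : ∀ (k : ℕ) (x : G), x ∈ R → (t ^ k)⁻¹ * x * t ^ k ∈ R := by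
    intro k x hx
    rw [hz k]
    have : t ^ k * ((t ^ k)⁻¹ * x * t ^ k) * (t ^ k)⁻¹ = x := by group
    rw [this]
    exact hx
  -- translates of R-stable submodules
  have hst : ∀ (k : ℕ) (B : Submodule J M), StJ R B → StJ R (tm (t ^ k) B) := by
    intro k B hB g hg x hx
    rw [mem_tm] at hx ⊢
    have h1 := hB _ (hz' k g hg) _ hx
    rw [← mul_smul] at h1 ⊢
    have h2 : (t ^ k)⁻¹ * g * t ^ k * (t ^ k)⁻¹ = (t ^ k)⁻¹ * g := by group
    rw [h2] at h1
    exact h1
  have hst' : ∀ (k : ℕ) (B : Submodule J M), StJ R B → StJ R (tm (t ^ k)⁻¹ B) := by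
    intro k B hB g hg x hx
    rw [mem_tm, inv_inv] at hx ⊢
    have h1 := hB _ ((hz k g).1 hg) _ hx
    rw [← mul_smul] at h1 ⊢
    have h2 : t ^ k * g * (t ^ k)⁻¹ * t ^ k = t ^ k * g := by group
    rw [h2] at h1
    exact h1
  have htC : ∀ k : ℤ, tm (t ^ k) C ≤ C := fun k => stJ_iff.1 hC _ (P.zpow_mem htP k)
  have htC1 : tm t C ≤ C := stJ_iff.1 hC _ htP
  set N : Submodule J M := spJ J R {s} with hNdef
  have hNst : StJ R N := stJ_spJ R {s}
  have hCR : StJ R C := stJ_mono hRP hC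
  have hNkst : ∀ k, StJ R (Nk C N t k) := by
    intro k
    induction k with
    | zero => exact hCR
    | succ k ih => exact stJ_sup ih (hst k N hNst)
  -- the submodules X_k
  let X : ℕ → Submodule J M := fun k => N ⊓ tm (t ^ k)⁻¹ (Nk C N t k)
  have hXst : ∀ k, StJ R (X k) := by
    intro k g hg x hx
    exact ⟨hNst g hg x hx.1, hst' k _ (hNkst k) g hg x hx.2⟩
  have hXle : ∀ k, X k ≤ N := fun k => inf_le_left
  have hXmono : Monotone X := by
    apply monotone_nat_of_le_succ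
    intro k x hx
    refine ⟨hx.1, ?_⟩
    have h1 : x ∈ tm (t ^ k)⁻¹ (Nk C N t k) := hx.2
    show x ∈ tm (t ^ (k + 1))⁻¹ (Nk C N t (k + 1))
    rw [mem_tm, inv_inv] at h1 ⊢
    have h2 := Nk_smul C N t htC1 k (smul_mem_tm (g := t) h1)
    rw [← mul_smul, ← pow_succ'] at h2
    exact h2
  obtain ⟨K, hK⟩ := hN J M G hG R {s} X hXmono
    (fun n => by rw [Finset.coe_singleton]; exact hXle n) hXst
  have hfk : ∀ k, ∃ f : J, f ≠ 0 ∧ GFs f (X k) N := by
    intro k
    obtain ⟨f, hf, hg⟩ := hR (X k) (hXst k) {s}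
    rw [Finset.coe_singleton, sup_eq_right.2 (hXle k)] at hg
    exact ⟨f, hf, hg⟩
  have hfK : ∀ L, ∃ f : J, f ≠ 0 ∧ ∀ k ≤ L, GFs f (X k) N := by
    intro L
    induction L with
    | zero =>
      obtain ⟨f, hf, hg⟩ := hfk 0
      refine ⟨f, hf, fun k hk => ?_⟩
      have : k = 0 := by omega
      rw [this]
      exact hg
    | succ L ih =>
      obtain ⟨f1, hf1, hg1⟩ := ih
      obtain ⟨f2, hf2, hg2⟩ := hfk (L + 1)
      refine ⟨f1 * f2, mul_ne_zero hf1 hf2, fun k hk => ?_⟩
      rcases Nat.lt_or_ge L k with h | h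
      · have : k = L + 1 := by omega
        rw [this, mul_comm]
        exact hM J M f2 f1 _ _ hg2
      · exact hM J M f1 f2 _ _ (hg1 k h)
  obtain ⟨f, hf, hfX⟩ := hfK K
  have hfX' : ∀ k, GFs f (X k) N := by
    intro k
    rcases Nat.lt_or_ge K k with h | h
    · rw [hK k h.le]
      exact hfX K le_rfl
    · exact hfX k h
  have hNk : ∀ k, GFs f (Nk C N t k) (Nk C N t (k + 1)) := by
    intro k
    have h1 := hP J M (DistribMulAction.toLinearEquiv J M (t ^ k)) f _ _ (hfX' k)
    have h2 : GFs f (tm (t ^ k) (X k)) (tm (t ^ k) N) := h1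
    have h3 : tm (t ^ k) (X k) = tm (t ^ k) N ⊓ Nk C N t k := by
      show tm (t ^ k) (N ⊓ tm (t ^ k)⁻¹ (Nk C N t k)) = _
      rw [tm_inf, tm_tm, mul_inv_cancel, tm_one]
    rw [h3] at h2
    exact hI J M f _ _ h2
  -- the union
  set Mp : Submodule J M := ⨆ k, Nk C N t k with hMp
  have hmemMp : ∀ x, x ∈ Mp ↔ ∃ k, x ∈ Nk C N t k := by
    intro x
    rw [hMp]
    exact Submodule.mem_iSup_of_directed _ (Nk_mono C N t).directed_le
  have hG1 : GFs f C Mp := hU J M f (Nk C N t) (Nk_mono C N t) hNk Mp hmemMp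
  have hMpst : StJ R Mp := by
    intro g hg x hx
    rw [hmemMp] at hx ⊢
    obtain ⟨k, hk⟩ := hx
    exact ⟨k, hNkst k g hg x hk⟩
  have hNkMp : ∀ k, Nk C N t k ≤ Mp := fun k x hx => (hmemMp x).2 ⟨k, hx⟩
  have htMp : tm t Mp ≤ Mp := by
    intro x hx
    rw [mem_tm, hmemMp] at hx
    obtain ⟨k, hk⟩ := hx
    have := Nk_smul C N t htC1 k (smul_mem_tm (g := t) hk)
    rw [smul_inv_smul] at this
    exact hNkMp _ this
  have hCtMp : C ≤ tm t Mp := by
    intro x hx
    rw [mem_tm]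
    have h1 : t⁻¹ • x ∈ C := hC _ (P.inv_mem htP) x hx
    exact hNkMp 0 h1
  have hNMp : N ≤ Mp := by
    have : N ≤ Nk C N t 1 := by
      show N ≤ Nk C N t 0 ⊔ tm (t ^ 0) N
      rw [pow_zero, tm_one]
      exact le_sup_right
    exact this.trans (hNkMp 1)
  have hMpeq : tm t Mp ⊔ N = Mp := by
    apply le_antisymm (sup_le htMp hNMp)
    intro x hx
    rw [hmemMp] at hx
    obtain ⟨k, hk⟩ := hx
    have h1 : ∀ k, Nk C N t k ≤ tm t Mp ⊔ N := by
      intro k
      induction k with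
      | zero => exact hCtMp.trans le_sup_left
      | succ k ih =>
        refine sup_le ih ?_
        cases k with
        | zero =>
          rw [pow_zero, tm_one]
          exact le_sup_right
        | succ k =>
          rw [pow_succ', ← tm_tm]
          refine le_trans (tm_mono ?_) le_sup_left
          exact le_trans (le_sup_right : tm (t ^ k) N ≤ Nk C N t k ⊔ tm (t ^ k) N) (hNkMp (k + 1))
    exact h1 k hk
  have htMpst : StJ R (tm t Mp) := by
    have := hst 1 Mp hMpst
    rwa [pow_one] at this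
  obtain ⟨f', hf', hg'⟩ := hR (tm t Mp) htMpst {s}
  rw [Finset.coe_singleton] at hg'
  have hg'' : GFs f' (tm t Mp) Mp := by
    have h1 : tm t Mp ⊔ spJ J R {s} = Mp := hMpeq
    rw [h1] at hg'
    exact hg'
  -- the second chain
  let Y : ℕ → Submodule J M := fun j => tm (t ^ j)⁻¹ Mp
  have hYeq : ∀ j, Y j = tm (t ^ (j + 1))⁻¹ (tm t Mp) := by
    intro j
    show tm (t ^ j)⁻¹ Mp = _
    rw [tm_tm]
    congr 1
    rw [pow_succ]
    group
  have hYst : ∀ j, GFs f' (Y j) (Y (j + 1)) := by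
    intro j
    have h1 := hP J M (DistribMulAction.toLinearEquiv J M (t ^ (j + 1))⁻¹) f' _ _ hg''
    have h2 : GFs f' (tm (t ^ (j + 1))⁻¹ (tm t Mp)) (tm (t ^ (j + 1))⁻¹ Mp) := h1
    rw [← hYeq j] at h2
    exact h2
  have hYmono : Monotone Y := by
    apply monotone_nat_of_le_succ
    intro j
    rw [hYeq j]
    exact tm_mono htMp
  have hY0 : Y 0 = Mp := by
    show tm (t ^ 0)⁻¹ Mp = Mp
    rw [pow_zero, inv_one, tm_one]
  have hBst : StJ P (C ⊔ spJ J P {s}) := stJ_sup hC (stJ_spJ P {s})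
  have hNkB : ∀ k, Nk C N t k ≤ C ⊔ spJ J P {s} := by
    intro k
    induction k with
    | zero => exact le_sup_left
    | succ k ih =>
      refine sup_le ih ?_
      refine le_trans (tm_mono ?_) (stJ_iff.1 hBst _ (P.pow_mem htP k))
      refine le_trans ?_ le_sup_right
      apply spJ_le
      intro g hg x hx
      exact mem_spJ (hRP hg) hx
  have hMpB : Mp ≤ C ⊔ spJ J P {s} := by
    intro x hx
    rw [hmemMp] at hx
    obtain ⟨k, hk⟩ := hx
    exact hNkB k hk
  have hYmem : ∀ x, x ∈ (⨆ j, Y j) ↔ ∃ j, x ∈ Y j := by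
    intro x
    exact Submodule.mem_iSup_of_directed _ hYmono.directed_le
  have hBY : C ⊔ spJ J P {s} ≤ ⨆ j, Y j := by
    apply sup_le
    · refine le_trans ?_ (le_iSup Y 0)
      rw [hY0]
      exact hNkMp 0
    · apply spJ_le
      intro p hp x hx
      rw [Set.mem_singleton_iff] at hx
      subst hx
      obtain ⟨k, hk⟩ := hgen p hp
      have hx1 : (t ^ (-k) * p) • x ∈ N := mem_spJ hk (Set.mem_singleton _)
      rw [hYmem]
      rcases Int.eq_nat_or_neg k with ⟨n, rfl | rfl⟩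
      · refine ⟨0, ?_⟩
        rw [hY0]
        apply hNkMp (n + 1)
        refine Submodule.mem_sup_right ?_
        rw [mem_tm, ← mul_smul]
        rw [zpow_neg, zpow_natCast] at hx1
        exact hx1
      · refine ⟨n, ?_⟩
        show p • x ∈ tm (t ^ n)⁻¹ Mp
        rw [mem_tm, inv_inv, ← mul_smul]
        rw [neg_neg, zpow_natCast] at hx1
        exact hNMp hx1
  have hBmem : ∀ x, x ∈ C ⊔ spJ J P {s} ↔ ∃ j, x ∈ Y j := by
    intro x
    constructor
    · intro hx
      exact (hYmem x).1 (hBY hx)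
    · rintro ⟨j, hj⟩
      have hj' : x ∈ tm (t ^ j)⁻¹ Mp := hj
      exact stJ_iff.1 hBst _ (P.inv_mem (P.pow_mem htP j)) (tm_mono hMpB hj')
  have hG2 := hU J M f' Y hYmono hYst (C ⊔ spJ J P {s}) hBmem
  rw [hY0] at hG2
  refine ⟨f * f', mul_ne_zero hf hf', ?_⟩
  refine hT J M (f * f') C Mp _ (hNkMp 0) hMpB (hM J M f f' _ _ hG1) ?_
  rw [mul_comm]
  exact hM J M f' f _ _ hG2

end

theorem gen (hN : NoeStmt) (hU : UnionStmt) (hT : TransStmt) (hM : MulStmt) (hI : IsoStmt)
    (hP : MapStmt) (hF : FgStmt) : GenStmt := by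
  intro J M G _ _ _ _ _ _ _ _ hG C hC S
  revert C hC S
  refine poly_ind hG (fun H => ∀ C : Submodule J M, StJ H C → ∀ S : Finset M,
      ∃ f : J, f ≠ 0 ∧ GFs f C (C ⊔ spJ J H (S : Set M))) ?_ ?_
  · intro C _ S
    obtain ⟨f, hf, hg⟩ := hF J M C S
    refine ⟨f, hf, ?_⟩
    have : spJ J (⊥ : Subgroup G) (S : Set M) = Submodule.span J (S : Set M) := by
      apply le_antisymm
      · apply spJ_le
        intro g hg s hs
        rw [Subgroup.mem_bot] at hg
        rw [hg, one_smul]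
        exact Submodule.subset_span hs
      · rw [Submodule.span_le]
        intro s hs
        have h1 := mem_spJ (J := J) (H := (⊥ : Subgroup G)) (Subgroup.one_mem _) hs
        rwa [one_smul] at h1
    rw [this]
    exact hg
  · intro R P t hRP htP hconj hgen hR C hC S
    classical
    induction S using Finset.induction_on with
    | empty =>
      refine ⟨1, one_ne_zero, ?_⟩
      have : spJ J P ((∅ : Finset M) : Set M) = ⊥ := by
        rw [eq_bot_iff]
        apply spJ_le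
        intro g hg s hs
        simp at hs
      rw [this, sup_bot_eq]
      exact gfs_self 1 C
    | insert s S' _ ih =>
      obtain ⟨f1, hf1, hg1⟩ := ih
      have hC' : StJ P (C ⊔ spJ J P (S' : Set M)) := stJ_sup hC (stJ_spJ P _)
      obtain ⟨f2, hf2, hg2⟩ := step hN hU hT hM hI hP hG R P t hRP htP hconj hgen hR
        (C ⊔ spJ J P (S' : Set M)) hC' s
      refine ⟨f1 * f2, mul_ne_zero hf1 hf2, ?_⟩
      rw [Finset.coe_insert, spJ_insert, ← sup_assoc]
      refine hT J M (f1 * f2) C (C ⊔ spJ J P (S' : Set M)) _ le_sup_left le_sup_left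
        (hM J M f1 f2 _ _ hg1) ?_
      rw [mul_comm]
      exact hM J M f2 f1 _ _ hg2

end Pool.Agent.TH267.HG
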