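import Pool.Agent.TH28.FL.Dat

/-!
Job FL2-DAT3: a semisimple element lies in the Cartan subalgebra of a datum.
-/

set_option autoImplicit false

universe u v

namespace Pool.Agent.TH267.FL

open Pool.Agent.TH28.FL Module

/-- the kernel of the square of a semisimple endomorphism is the kernel -/
theorem ker_pow_of_semisimple {K : Type u} [Field K] {L : Type v} [AddCommGroup L]
    [Module K L] [FiniteDimensional K L] {f : Module.End K L} (hf : f.IsSemisimple) (k : ℕ) {y : L}
    (hy : (f ^ k) y = 0) : f y = 0 := by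
  have h1 := hf.isFinitelySemisimple.maxGenEigenspace_eq_eigenspace 0
  have h2 : y ∈ f.maxGenEigenspace 0 := by
    rw [Module.End.mem_maxGenEigenspace]
    exact ⟨k, by simpa using hy⟩
  rw [h1, Module.End.mem_eigenspace_iff] at h2
  simpa using h2

theorem dat3 (h1 : S_DAT1.{u, v}) : S_DAT3.{u, v} := by
  intro K _ _ _ L _ _ _ _ x hx
  have hker : ∀ y : L, y ∈ LieSubalgebra.engel K x ↔ ⁅x, y⁆ = 0 := by
    intro y
    rw [LieSubalgebra.mem_engel_iff]
    constructor
    · rintro ⟨n, hn⟩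
      exact ker_pow_of_semisimple hx n hn
    · intro h
      exact ⟨1, by simpa using h⟩
  set l := LieSubalgebra.engel K x with hl
  obtain ⟨H0, hy0⟩ : ∃ H0 : LieSubalgebra K l, H0.IsCartanSubalgebra := by
    obtain ⟨y0, hy0⟩ := LieAlgebra.exists_isCartanSubalgebra_engel K l
    exact ⟨_, hy0⟩
  let φ : H0 →ₗ⁅K⁆ L := l.incl.comp H0.incl
  have hφ : Function.Injective φ := by
    intro a b hab
    exact Subtype.ext (Subtype.ext hab)
  have hxl : x ∈ l := LieSubalgebra.self_mem_engel K x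
  have hxH0 : (⟨x, hxl⟩ : l) ∈ H0 := by
    have h2 := hy0.self_normalizing
    rw [← h2, LieSubalgebra.mem_normalizer_iff]
    intro z hz
    have h3 : ⁅(⟨x, hxl⟩ : l), z⁆ = 0 := by
      apply Subtype.ext
      exact (hker z.1).1 z.2
    rw [h3]
    exact H0.zero_mem
  have hmem : ∀ y : L, y ∈ φ.range ↔ ∃ h : y ∈ l, (⟨y, h⟩ : l) ∈ H0 := by
    intro y
    rw [LieHom.mem_range]
    constructor
    · rintro ⟨z, rfl⟩
      exact ⟨z.1.2, z.2⟩
    · rintro ⟨h, h'⟩
      exact ⟨⟨⟨y, h⟩, h'⟩, rfl⟩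
  have hxH : x ∈ φ.range := (hmem x).2 ⟨hxl, hxH0⟩
  have hcart : φ.range.IsCartanSubalgebra := by
    refine ⟨?_, ?_⟩
    · have h2 := hy0.nilpotent
      exact (LieEquiv.nilpotent_iff_equiv_nilpotent (φ.equivRangeOfInjective hφ)).1 h2
    · apply le_antisymm _ (LieSubalgebra.le_normalizer _)
      intro y hy
      rw [LieSubalgebra.mem_normalizer_iff] at hy
      have h2 := hy x hxH
      obtain ⟨h3, -⟩ := (hmem _).1 h2
      have h4 := (hker _).1 h3
      have h5 : ⁅x, y⁆ = 0 := by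
        apply ker_pow_of_semisimple hx 2
        have h5 : ⁅x, ⁅x, y⁆⁆ = 0 := by rw [← lie_skew x y, lie_neg, h4, neg_zero]
        simpa [pow_two] using h5
      have hyl : y ∈ l := (hker y).2 h5
      rw [hmem]
      refine ⟨hyl, ?_⟩
      have h6 := hy0.self_normalizing
      rw [← h6, LieSubalgebra.mem_normalizer_iff]
      intro z hz
      have h7 := hy z.1 ((hmem _).2 ⟨z.2, hz⟩)
      obtain ⟨h8, h9⟩ := (hmem _).1 h7
      exact h9
  obtain ⟨w, M, hd, h0⟩ := h1 K L φ.range
  refine ⟨w, M, hd, ?_⟩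
  rw [h0]
  exact hxH

end Pool.Agent.TH267.FL
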