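import Mathlib

set_option autoImplicit false

namespace Pool.Agent.TH267.Makai

open MeasureTheory Set
open scoped ENNReal Matrix

variable {n : ℕ}

/-- Minkowski for the standard lattice: a convex symmetric set of volume more than `2 ^ n`
contains a nonzero integer point. -/
theorem minkowski_int (s : Set (Fin n → ℝ)) (hs : ∀ x ∈ s, -x ∈ s) (hc : Convex ℝ s)
    (hv : (2 : ℝ≥0∞) ^ n < volume s) :
    ∃ m : Fin n → ℤ, m ≠ 0 ∧ (fun i => (m i : ℝ)) ∈ s := by
  classical
  set b := Pi.basisFun ℝ (Fin n) with hb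
  have hF : IsAddFundamentalDomain (Submodule.span ℤ (Set.range b)).toAddSubgroup
      (ZSpan.fundamentalDomain b) (volume : Measure (Fin n → ℝ)) :=
    ZSpan.isAddFundamentalDomain' b _
  have hvF : volume (ZSpan.fundamentalDomain b) = 1 := by
    rw [hb, ZSpan.fundamentalDomain_pi_basisFun, Real.volume_pi_Ico]
    simp
  have : Countable (Submodule.span ℤ (Set.range b)).toAddSubgroup := by
    change Countable (Submodule.span ℤ (Set.range b))
    infer_instance
  obtain ⟨x, hx0, hx⟩ := exists_ne_zero_mem_lattice_of_measure_mul_two_pow_lt_measure hF hs hc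
    (by rw [hvF, one_mul, Module.finrank_fin_fun]; exact hv)
  have hmem : (x : Fin n → ℝ) ∈ Submodule.span ℤ (Set.range b) := x.2
  have hint : ∀ i, ∃ z : ℤ, (z : ℝ) = (x : Fin n → ℝ) i := by
    intro i
    have := (b.mem_span_iff_repr_mem ℤ (x : Fin n → ℝ)).1 hmem i
    obtain ⟨z, hz⟩ := this
    refine ⟨z, ?_⟩
    simpa [hb] using hz
  choose m hm using hint
  refine ⟨m, ?_, ?_⟩
  · rintro rfl
    apply hx0
    apply Subtype.ext
    funext i
    rw [← hm i]
    simp
  · have : (fun i => (m i : ℝ)) = (x : Fin n → ℝ) := funext hm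
    rw [this]; exact hx

end Pool.Agent.TH267.Makai
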